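import Pool.Agent.Helper73.SEY.SpDefs

/-!
Splitter check: the one-element extensions of `K5` have a Fano minor.  The tables are computer generated certificates (`BM.HasMinor.of_finCert`).
-/

namespace SEY.Sp

open Finset BM

def k5V : Fin 5 → Fin 5 → ZMod 2 :=
  ![![0, 1, 1, 1, 1],
    ![1, 0, 1, 1, 1],
    ![1, 1, 0, 1, 1],
    ![1, 1, 1, 0, 1],
    ![1, 1, 1, 1, 0]]

def k5Ph : Fin 5 → Fin 7 → Fin 11 :=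
  ![![4, 5, 6, 7, 8, 9, 10],
    ![4, 5, 6, 7, 8, 9, 10],
    ![4, 5, 6, 7, 8, 9, 10],
    ![4, 5, 6, 7, 8, 9, 10],
    ![4, 5, 6, 7, 8, 9, 10]]

def k5C : Fin 5 → Finset (Fin 11) :=
  ![{0},
    {0},
    {1},
    {2},
    {3}]

def k5A : Fin 5 → Fin 3 → Fin 5 → ZMod 2 :=
  ![![![0, 0, 1, 0, 0], ![0, 0, 0, 1, 0], ![1, 1, 1, 1, 0]],
    ![![0, 0, 1, 0, 0], ![0, 0, 0, 1, 0], ![1, 1, 1, 1, 0]],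
    ![![1, 0, 1, 0, 0], ![0, 0, 0, 1, 0], ![1, 1, 1, 1, 0]],
    ![![0, 0, 1, 0, 0], ![1, 0, 0, 1, 0], ![1, 1, 1, 1, 0]],
    ![![0, 0, 1, 0, 0], ![0, 0, 0, 1, 0], ![0, 1, 1, 1, 0]]]

def k5Z : Fin 5 → Fin 4 → Fin 11 → ZMod 2 :=
  ![![![0, 0, 0, 0, 1, 1, 0, 1, 0, 0, 0], ![0, 0, 0, 0, 1, 0, 1, 0, 1, 0, 0], ![0, 0, 0, 0, 0, 1, 1, 0, 0, 1, 0], ![0, 0, 0, 0, 1, 1, 1, 0, 0, 0, 1]],
    ![![0, 0, 0, 0, 1, 1, 0, 1, 0, 0, 0], ![0, 0, 0, 0, 1, 0, 1, 0, 1, 0, 0], ![0, 0, 0, 0, 0, 1, 1, 0, 0, 1, 0], ![1, 0, 0, 0, 1, 1, 1, 0, 0, 0, 1]],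
    ![![0, 0, 0, 0, 1, 1, 0, 1, 0, 0, 0], ![0, 0, 0, 0, 1, 0, 1, 0, 1, 0, 0], ![0, 0, 0, 0, 0, 1, 1, 0, 0, 1, 0], ![0, 1, 0, 0, 1, 1, 1, 0, 0, 0, 1]],
    ![![0, 0, 0, 0, 1, 1, 0, 1, 0, 0, 0], ![0, 0, 0, 0, 1, 0, 1, 0, 1, 0, 0], ![0, 0, 0, 0, 0, 1, 1, 0, 0, 1, 0], ![0, 0, 1, 0, 1, 1, 1, 0, 0, 0, 1]],
    ![![0, 0, 0, 0, 1, 1, 0, 1, 0, 0, 0], ![0, 0, 0, 0, 1, 0, 1, 0, 1, 0, 0], ![0, 0, 0, 0, 0, 1, 1, 0, 0, 1, 0], ![0, 0, 0, 1, 1, 1, 1, 0, 0, 0, 1]]]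

theorem k5ok : ∀ i : Fin 5, FinCert F7 F7s (ext K5 (k5V i)) (k5Ph i)
    (k5C i) (k5A i) (k5Z i) := by
  decide +kernel

theorem k5cov : ∀ v : Fin 5 → ZMod 2, ∑ i, v i = 0 → (∀ i, v i = 0) ∨
    (∃ j, ∀ i, v i = K5 i j) ∨ ∃ i, v = k5V i := by
  decide +kernel

theorem eok_K5 {E : Type} [Fintype E] [DecidableEq E] :
    EOK K5 (fun M : BM E => NoF M ∧ ¬ HasMinor K33 M) := by
  intro M hM v hv h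
  have h0 : ∑ i, v i = 0 := by
    have := hv (fun _ => 1) (by decide)
    simpa using this
  rcases k5cov v h0 with h1 | h1 | ⟨i, rfl⟩
  · exact Or.inl h1
  · exact Or.inr h1
  · exact absurd (h.of_finCert compl_F7 (k5ok i)) hM.1.1

end SEY.Sp
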