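import Pool.Agent.Helper73.SEY.SpDefs

/-!
Splitter check: the one-element extensions of `R10` have a Fano minor.  The tables are computer generated certificates (`BM.HasMinor.of_finCert`).
-/

namespace SEY.Sp

open Finset BM

def r10V : Fin 21 → Fin 5 → ZMod 2 :=
  ![![0, 0, 0, 1, 1],
    ![0, 0, 1, 0, 1],
    ![0, 0, 1, 1, 0],
    ![0, 1, 0, 0, 1],
    ![0, 1, 0, 1, 0],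
    ![0, 1, 0, 1, 1],
    ![0, 1, 1, 0, 0],
    ![0, 1, 1, 0, 1],
    ![0, 1, 1, 1, 1],
    ![1, 0, 0, 0, 1],
    ![1, 0, 0, 1, 0],
    ![1, 0, 1, 0, 0],
    ![1, 0, 1, 0, 1],
    ![1, 0, 1, 1, 0],
    ![1, 0, 1, 1, 1],
    ![1, 1, 0, 0, 0],
    ![1, 1, 0, 1, 0],
    ![1, 1, 0, 1, 1],
    ![1, 1, 1, 0, 1],
    ![1, 1, 1, 1, 0],
    ![1, 1, 1, 1, 1]]

def r10Ph : Fin 21 → Fin 7 → Fin 11 :=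
  ![![2, 4, 7, 6, 9, 8, 10],
    ![3, 5, 6, 9, 7, 10, 8],
    ![2, 3, 4, 10, 6, 9, 8],
    ![0, 5, 6, 10, 7, 8, 9],
    ![2, 5, 7, 6, 10, 8, 9],
    ![3, 4, 5, 9, 10, 6, 7],
    ![1, 3, 6, 9, 10, 8, 7],
    ![3, 5, 6, 9, 7, 10, 8],
    ![3, 4, 5, 9, 10, 6, 7],
    ![1, 3, 5, 7, 10, 8, 9],
    ![4, 5, 7, 6, 8, 9, 10],
    ![1, 5, 6, 9, 10, 8, 7],
    ![3, 5, 6, 9, 7, 10, 8],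
    ![2, 3, 4, 10, 6, 9, 8],
    ![0, 4, 6, 9, 7, 10, 8],
    ![2, 4, 5, 8, 9, 10, 6],
    ![2, 5, 7, 6, 10, 8, 9],
    ![3, 4, 5, 9, 10, 6, 7],
    ![3, 5, 6, 9, 7, 10, 8],
    ![4, 5, 7, 6, 8, 9, 10],
    ![3, 4, 5, 9, 10, 6, 7]]

def r10C : Fin 21 → Finset (Fin 11) :=
  ![{1, 5},
    {0, 1},
    {0, 5},
    {2, 3},
    {0, 4},
    {0, 2},
    {4, 5},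
    {0, 1},
    {0, 2},
    {2, 6},
    {1, 2},
    {3, 4},
    {0, 1},
    {0, 5},
    {1, 3},
    {3, 7},
    {0, 4},
    {0, 2},
    {0, 1},
    {1, 2},
    {0, 2}]

def r10A : Fin 21 → Fin 3 → Fin 5 → ZMod 2 :=
  ![![![0, 0, 1, 1, 0], ![1, 0, 0, 0, 1], ![0, 0, 0, 1, 0]],
    ![![0, 0, 0, 1, 0], ![0, 0, 0, 0, 1], ![0, 0, 1, 0, 0]],
    ![![0, 0, 1, 0, 0], ![0, 0, 0, 1, 0], ![0, 1, 0, 0, 1]],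
    ![![1, 1, 0, 0, 0], ![0, 0, 0, 0, 1], ![0, 1, 0, 0, 1]],
    ![![0, 0, 1, 1, 0], ![0, 1, 0, 1, 0], ![0, 0, 0, 1, 0]],
    ![![0, 0, 0, 1, 0], ![0, 1, 0, 0, 1], ![0, 1, 0, 0, 0]],
    ![![1, 1, 0, 0, 0], ![0, 0, 0, 1, 0], ![0, 0, 1, 0, 0]],
    ![![0, 0, 0, 1, 0], ![0, 0, 0, 0, 1], ![0, 0, 1, 0, 0]],
    ![![0, 0, 0, 1, 0], ![0, 1, 0, 0, 1], ![0, 1, 0, 0, 0]],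
    ![![1, 1, 0, 0, 0], ![0, 0, 0, 1, 0], ![0, 0, 0, 0, 1]],
    ![![1, 0, 0, 0, 1], ![1, 0, 0, 0, 0], ![0, 0, 0, 1, 0]],
    ![![1, 1, 0, 0, 0], ![1, 0, 1, 0, 0], ![0, 0, 1, 0, 0]],
    ![![0, 0, 0, 1, 0], ![0, 0, 0, 0, 1], ![0, 0, 1, 0, 0]],
    ![![0, 0, 1, 0, 0], ![0, 0, 0, 1, 0], ![0, 1, 0, 0, 1]],
    ![![1, 0, 1, 0, 0], ![0, 0, 0, 0, 1], ![0, 0, 1, 0, 0]],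
    ![![1, 1, 1, 0, 0], ![1, 0, 0, 0, 1], ![1, 0, 0, 0, 0]],
    ![![0, 0, 1, 1, 0], ![0, 1, 0, 1, 0], ![0, 0, 0, 1, 0]],
    ![![0, 0, 0, 1, 0], ![0, 1, 0, 0, 1], ![0, 1, 0, 0, 0]],
    ![![0, 0, 0, 1, 0], ![0, 0, 0, 0, 1], ![0, 0, 1, 0, 0]],
    ![![1, 0, 0, 0, 1], ![1, 0, 0, 0, 0], ![0, 0, 0, 1, 0]],
    ![![0, 0, 0, 1, 0], ![0, 1, 0, 0, 1], ![0, 1, 0, 0, 0]]]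

def r10Z : Fin 21 → Fin 4 → Fin 11 → ZMod 2 :=
  ![![![0, 0, 1, 0, 1, 1, 1, 0, 0, 0, 0], ![0, 0, 1, 0, 0, 1, 0, 1, 0, 1, 0], ![0, 1, 0, 0, 1, 0, 0, 1, 1, 0, 0], ![0, 1, 1, 0, 1, 0, 0, 1, 0, 0, 1]],
    ![![0, 1, 0, 1, 0, 1, 0, 0, 0, 1, 0], ![1, 0, 0, 1, 0, 0, 1, 1, 0, 0, 0], ![0, 0, 0, 0, 0, 1, 1, 0, 0, 0, 1], ![0, 0, 0, 1, 0, 1, 1, 0, 1, 0, 0]],
    ![![0, 0, 1, 1, 0, 0, 0, 0, 0, 0, 1], ![0, 0, 1, 0, 1, 1, 1, 0, 0, 0, 0], ![1, 0, 0, 1, 1, 0, 0, 0, 0, 1, 0], ![0, 0, 1, 1, 1, 0, 0, 0, 1, 0, 0]],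
    ![![1, 0, 0, 0, 0, 1, 0, 0, 0, 0, 1], ![1, 0, 0, 1, 0, 0, 1, 1, 0, 0, 0], ![0, 0, 0, 1, 0, 1, 1, 0, 1, 0, 0], ![1, 0, 1, 1, 0, 1, 1, 0, 0, 1, 0]],
    ![![0, 0, 1, 0, 1, 1, 1, 0, 0, 0, 0], ![0, 0, 1, 0, 0, 0, 0, 1, 0, 0, 1], ![1, 0, 0, 0, 0, 1, 0, 1, 1, 0, 0], ![0, 0, 1, 0, 0, 1, 0, 1, 0, 1, 0]],
    ![![1, 0, 0, 1, 1, 0, 0, 0, 0, 1, 0], ![1, 0, 0, 1, 0, 1, 0, 0, 0, 0, 1], ![0, 0, 1, 0, 1, 1, 1, 0, 0, 0, 0], ![1, 0, 1, 1, 1, 1, 0, 1, 0, 0, 0]],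
    ![![0, 1, 0, 1, 0, 1, 0, 0, 0, 1, 0], ![0, 1, 0, 0, 1, 1, 1, 0, 0, 0, 1], ![0, 0, 0, 1, 0, 1, 1, 0, 1, 0, 0], ![0, 1, 0, 1, 1, 1, 1, 1, 0, 0, 0]],
    ![![0, 1, 0, 1, 0, 1, 0, 0, 0, 1, 0], ![1, 0, 0, 1, 0, 0, 1, 1, 0, 0, 0], ![0, 1, 0, 0, 0, 1, 1, 0, 0, 0, 1], ![0, 0, 0, 1, 0, 1, 1, 0, 1, 0, 0]],
    ![![1, 0, 0, 1, 1, 0, 0, 0, 0, 1, 0], ![1, 0, 1, 1, 0, 1, 0, 0, 0, 0, 1], ![0, 0, 1, 0, 1, 1, 1, 0, 0, 0, 0], ![1, 0, 1, 1, 1, 1, 0, 1, 0, 0, 0]],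
    ![![0, 1, 1, 1, 0, 0, 0, 1, 0, 0, 0], ![0, 1, 0, 0, 0, 1, 0, 0, 0, 0, 1], ![0, 0, 0, 1, 0, 1, 1, 0, 1, 0, 0], ![0, 1, 0, 1, 0, 1, 0, 0, 0, 1, 0]],
    ![![0, 0, 1, 0, 1, 1, 1, 0, 0, 0, 0], ![0, 1, 0, 0, 1, 0, 0, 1, 1, 0, 0], ![0, 0, 1, 0, 0, 1, 0, 1, 0, 1, 0], ![0, 0, 1, 0, 1, 1, 0, 1, 0, 0, 1]],
    ![![0, 1, 0, 1, 0, 1, 0, 0, 0, 1, 0], ![0, 1, 0, 0, 0, 0, 1, 0, 0, 0, 1], ![0, 0, 0, 1, 0, 1, 1, 0, 1, 0, 0], ![0, 1, 0, 1, 1, 1, 1, 1, 0, 0, 0]],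
    ![![0, 1, 0, 1, 0, 1, 0, 0, 0, 1, 0], ![1, 0, 0, 1, 0, 0, 1, 1, 0, 0, 0], ![1, 0, 0, 0, 0, 1, 1, 0, 0, 0, 1], ![0, 0, 0, 1, 0, 1, 1, 0, 1, 0, 0]],
    ![![1, 0, 1, 1, 0, 0, 0, 0, 0, 0, 1], ![0, 0, 1, 0, 1, 1, 1, 0, 0, 0, 0], ![1, 0, 0, 1, 1, 0, 0, 0, 0, 1, 0], ![0, 0, 1, 1, 1, 0, 0, 0, 1, 0, 0]],
    ![![1, 0, 0, 1, 1, 0, 0, 0, 0, 1, 0], ![1, 0, 0, 1, 0, 0, 1, 1, 0, 0, 0], ![0, 1, 0, 1, 1, 0, 1, 0, 0, 0, 1], ![1, 1, 0, 1, 1, 0, 1, 0, 1, 0, 0]],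
    ![![0, 0, 1, 1, 1, 0, 0, 0, 1, 0, 0], ![0, 0, 1, 0, 0, 1, 0, 1, 0, 1, 0], ![0, 0, 0, 0, 1, 1, 0, 0, 0, 0, 1], ![0, 0, 1, 0, 1, 1, 1, 0, 0, 0, 0]],
    ![![0, 0, 1, 0, 1, 1, 1, 0, 0, 0, 0], ![1, 0, 1, 0, 0, 0, 0, 1, 0, 0, 1], ![1, 0, 0, 0, 0, 1, 0, 1, 1, 0, 0], ![0, 0, 1, 0, 0, 1, 0, 1, 0, 1, 0]],
    ![![1, 0, 0, 1, 1, 0, 0, 0, 0, 1, 0], ![0, 0, 0, 1, 0, 1, 0, 0, 0, 0, 1], ![0, 0, 1, 0, 1, 1, 1, 0, 0, 0, 0], ![1, 0, 1, 1, 1, 1, 0, 1, 0, 0, 0]],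
    ![![0, 1, 0, 1, 0, 1, 0, 0, 0, 1, 0], ![1, 0, 0, 1, 0, 0, 1, 1, 0, 0, 0], ![1, 1, 0, 0, 0, 1, 1, 0, 0, 0, 1], ![0, 0, 0, 1, 0, 1, 1, 0, 1, 0, 0]],
    ![![0, 0, 1, 0, 1, 1, 1, 0, 0, 0, 0], ![0, 1, 0, 0, 1, 0, 0, 1, 1, 0, 0], ![0, 0, 1, 0, 0, 1, 0, 1, 0, 1, 0], ![0, 1, 0, 0, 1, 1, 0, 1, 0, 0, 1]],
    ![![1, 0, 0, 1, 1, 0, 0, 0, 0, 1, 0], ![0, 0, 1, 1, 0, 1, 0, 0, 0, 0, 1], ![0, 0, 1, 0, 1, 1, 1, 0, 0, 0, 0], ![1, 0, 1, 1, 1, 1, 0, 1, 0, 0, 0]]]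

theorem r10ok : ∀ i : Fin 21, FinCert F7 F7s (ext R10 (r10V i)) (r10Ph i)
    (r10C i) (r10A i) (r10Z i) := by
  decide +kernel

theorem r10cov : ∀ v : Fin 5 → ZMod 2, (∀ i, v i = 0) ∨ (∃ j, ∀ i, v i = R10 i j) ∨
    ∃ i, v = r10V i := by
  decide +kernel

theorem eok_R10 {E : Type} [Fintype E] [DecidableEq E] :
    EOK R10 (fun M : BM E => NoF M) := by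
  intro M hM v _ h
  rcases r10cov v with h1 | h1 | ⟨i, rfl⟩
  · exact Or.inl h1
  · exact Or.inr h1
  · exact absurd (h.of_finCert compl_F7 (r10ok i)) hM.1

end SEY.Sp
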