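import Pool.Agent.Helper73.SEY.SpDefs

/-!
Splitter check: for a triangle `n, j, l` of `K5` the matroid `tri K5 n j` has a `K33` minor.
The tables are computer generated certificates (`BM.HasMinor.of_finCert`).
-/

namespace SEY.Sp

open Finset BM

def k5tN : Fin 60 → Fin 10 :=
  ![0, 0, 0, 0, 0, 0, 1, 1, 1, 1, 1, 1, 2, 2, 2, 2, 2, 2, 3, 3, 3, 3, 3, 3, 4, 4, 4, 4, 4, 4, 5, 5, 5, 5, 5, 5, 6, 6, 6, 6, 6, 6, 7, 7, 7, 7, 7, 7, 8, 8, 8, 8, 8, 8, 9, 9, 9, 9, 9, 9]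

def k5tJ : Fin 60 → Fin 10 :=
  ![1, 2, 3, 4, 5, 6, 0, 2, 3, 4, 7, 8, 0, 1, 3, 5, 7, 9, 0, 1, 2, 6, 8, 9, 0, 1, 5, 6, 7, 8, 0, 2, 4, 6, 7, 9, 0, 3, 4, 5, 8, 9, 1, 2, 4, 5, 8, 9, 1, 3, 4, 6, 7, 9, 2, 3, 5, 6, 7, 8]

def k5tPh : Fin 60 → Fin 9 → Fin 12 :=
  ![![1, 10, 11, 7, 5, 2, 8, 6, 3],
    ![1, 4, 7, 3, 6, 9, 11, 10, 2],
    ![1, 4, 8, 2, 5, 9, 11, 10, 3],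
    ![2, 5, 7, 3, 6, 8, 10, 11, 4],
    ![1, 4, 7, 3, 6, 9, 10, 11, 5],
    ![1, 4, 8, 2, 5, 9, 10, 11, 6],
    ![0, 10, 11, 5, 7, 2, 6, 8, 3],
    ![0, 4, 5, 3, 8, 9, 11, 10, 2],
    ![0, 4, 6, 2, 7, 9, 11, 10, 3],
    ![2, 5, 7, 3, 6, 8, 10, 4, 11],
    ![0, 4, 5, 3, 8, 9, 10, 11, 7],
    ![0, 4, 6, 2, 7, 9, 10, 11, 8],
    ![0, 10, 11, 4, 7, 1, 6, 9, 3],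
    ![0, 4, 5, 3, 8, 9, 11, 1, 10],
    ![0, 5, 6, 1, 7, 8, 11, 10, 3],
    ![1, 4, 7, 3, 6, 9, 10, 5, 11],
    ![0, 4, 5, 3, 8, 9, 10, 7, 11],
    ![0, 5, 6, 1, 7, 8, 10, 11, 9],
    ![0, 10, 11, 4, 8, 1, 5, 9, 2],
    ![0, 4, 6, 2, 7, 9, 11, 1, 10],
    ![0, 5, 6, 1, 7, 8, 11, 2, 10],
    ![1, 4, 8, 2, 5, 9, 10, 6, 11],
    ![0, 4, 6, 2, 7, 9, 10, 8, 11],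
    ![0, 5, 6, 1, 7, 8, 10, 9, 11],
    ![0, 10, 11, 2, 7, 5, 3, 8, 6],
    ![1, 10, 11, 2, 5, 7, 3, 6, 8],
    ![0, 6, 11, 1, 8, 10, 2, 9, 5],
    ![0, 5, 11, 1, 7, 10, 3, 9, 6],
    ![0, 6, 10, 1, 8, 11, 2, 9, 7],
    ![0, 5, 10, 1, 7, 11, 3, 9, 8],
    ![0, 10, 11, 1, 7, 4, 3, 9, 6],
    ![1, 4, 7, 2, 10, 11, 3, 6, 9],
    ![0, 6, 11, 1, 8, 4, 2, 9, 10],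
    ![0, 4, 11, 2, 7, 10, 3, 8, 6],
    ![0, 6, 10, 1, 8, 7, 2, 9, 11],
    ![0, 4, 10, 2, 7, 11, 3, 8, 9],
    ![0, 10, 11, 1, 8, 4, 2, 9, 5],
    ![1, 4, 8, 2, 5, 9, 3, 10, 11],
    ![0, 5, 11, 1, 7, 4, 3, 9, 10],
    ![0, 4, 11, 2, 7, 5, 3, 8, 10],
    ![0, 5, 10, 1, 7, 8, 3, 9, 11],
    ![0, 4, 10, 2, 7, 9, 3, 8, 11],
    ![0, 4, 5, 1, 11, 10, 3, 8, 9],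
    ![0, 4, 5, 2, 10, 11, 3, 8, 9],
    ![0, 4, 6, 1, 11, 8, 2, 10, 9],
    ![0, 5, 6, 1, 10, 8, 2, 11, 9],
    ![1, 4, 11, 2, 5, 10, 3, 6, 8],
    ![1, 4, 10, 2, 5, 11, 3, 6, 9],
    ![0, 4, 6, 1, 11, 10, 2, 7, 9],
    ![0, 4, 6, 2, 7, 9, 3, 10, 11],
    ![0, 4, 5, 1, 11, 7, 3, 10, 9],
    ![0, 5, 6, 1, 7, 10, 3, 9, 11],
    ![1, 4, 11, 2, 5, 7, 3, 6, 10],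
    ![1, 4, 10, 2, 5, 9, 3, 6, 11],
    ![0, 5, 6, 1, 7, 8, 2, 11, 10],
    ![0, 5, 6, 1, 7, 8, 3, 10, 11],
    ![0, 4, 5, 2, 7, 11, 3, 8, 10],
    ![0, 4, 6, 2, 7, 10, 3, 8, 11],
    ![1, 4, 7, 2, 5, 11, 3, 6, 10],
    ![1, 4, 8, 2, 5, 10, 3, 6, 11]]

def k5tA : Fin 60 → Fin 6 → Fin 6 → ZMod 2 :=
  ![![![0, 0, 0, 0, 0, 1], ![0, 0, 0, 1, 0, 0], ![1, 1, 1, 1, 0, 0], ![0, 0, 1, 0, 0, 0], ![0, 1, 0, 0, 0, 0], ![1, 0, 0, 0, 0, 1]],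
    ![![0, 0, 1, 0, 0, 0], ![1, 1, 1, 1, 0, 0], ![0, 0, 0, 0, 0, 1], ![1, 0, 0, 0, 0, 1], ![0, 1, 0, 0, 0, 0], ![0, 0, 0, 1, 0, 0]],
    ![![0, 0, 1, 0, 0, 0], ![0, 0, 0, 1, 0, 0], ![0, 0, 0, 0, 0, 1], ![1, 0, 0, 0, 0, 1], ![0, 1, 0, 0, 0, 0], ![1, 1, 1, 1, 0, 0]],
    ![![0, 0, 0, 1, 0, 0], ![1, 1, 1, 1, 0, 0], ![0, 0, 0, 0, 0, 1], ![1, 0, 0, 0, 0, 0], ![0, 1, 0, 0, 0, 1], ![0, 0, 1, 0, 0, 0]],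
    ![![0, 0, 1, 0, 0, 0], ![1, 1, 1, 1, 0, 0], ![0, 0, 0, 0, 0, 1], ![1, 0, 0, 0, 0, 0], ![0, 1, 0, 0, 0, 1], ![0, 0, 0, 1, 0, 0]],
    ![![0, 0, 1, 0, 0, 0], ![0, 0, 0, 1, 0, 0], ![0, 0, 0, 0, 0, 1], ![1, 0, 0, 0, 0, 0], ![0, 1, 0, 0, 0, 1], ![1, 1, 1, 1, 0, 0]],
    ![![0, 0, 0, 0, 0, 1], ![0, 0, 0, 1, 0, 0], ![1, 1, 1, 1, 0, 0], ![0, 1, 0, 0, 0, 0], ![0, 0, 1, 0, 0, 0], ![1, 0, 0, 0, 0, 1]],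
    ![![0, 1, 0, 0, 0, 0], ![1, 1, 1, 1, 0, 0], ![0, 0, 0, 0, 0, 1], ![1, 0, 0, 0, 0, 1], ![0, 0, 1, 0, 0, 0], ![0, 0, 0, 1, 0, 0]],
    ![![0, 1, 0, 0, 0, 0], ![0, 0, 0, 1, 0, 0], ![0, 0, 0, 0, 0, 1], ![1, 0, 0, 0, 0, 1], ![0, 0, 1, 0, 0, 0], ![1, 1, 1, 1, 0, 0]],
    ![![0, 0, 0, 1, 0, 0], ![1, 1, 1, 1, 0, 0], ![0, 0, 0, 0, 0, 1], ![1, 0, 0, 0, 0, 0], ![0, 1, 0, 0, 0, 0], ![0, 0, 1, 0, 0, 1]],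
    ![![0, 1, 0, 0, 0, 0], ![1, 1, 1, 1, 0, 0], ![0, 0, 0, 0, 0, 1], ![1, 0, 0, 0, 0, 0], ![0, 0, 1, 0, 0, 1], ![0, 0, 0, 1, 0, 0]],
    ![![0, 1, 0, 0, 0, 0], ![0, 0, 0, 1, 0, 0], ![0, 0, 0, 0, 0, 1], ![1, 0, 0, 0, 0, 0], ![0, 0, 1, 0, 0, 1], ![1, 1, 1, 1, 0, 0]],
    ![![0, 0, 0, 0, 0, 1], ![0, 0, 1, 0, 0, 0], ![1, 1, 1, 1, 0, 0], ![0, 1, 0, 0, 0, 0], ![0, 0, 0, 1, 0, 0], ![1, 0, 0, 0, 0, 1]],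
    ![![0, 1, 0, 0, 0, 0], ![1, 1, 1, 1, 0, 0], ![0, 0, 0, 0, 0, 1], ![1, 0, 0, 0, 0, 1], ![0, 0, 1, 0, 0, 0], ![0, 0, 0, 1, 0, 0]],
    ![![0, 1, 0, 0, 0, 0], ![0, 0, 1, 0, 0, 0], ![0, 0, 0, 0, 0, 1], ![1, 0, 0, 0, 0, 1], ![0, 0, 0, 1, 0, 0], ![1, 1, 1, 1, 0, 0]],
    ![![0, 0, 1, 0, 0, 0], ![1, 1, 1, 1, 0, 0], ![0, 0, 0, 0, 0, 1], ![1, 0, 0, 0, 0, 0], ![0, 1, 0, 0, 0, 0], ![0, 0, 0, 1, 0, 1]],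
    ![![0, 1, 0, 0, 0, 0], ![1, 1, 1, 1, 0, 0], ![0, 0, 0, 0, 0, 1], ![1, 0, 0, 0, 0, 0], ![0, 0, 1, 0, 0, 0], ![0, 0, 0, 1, 0, 1]],
    ![![0, 1, 0, 0, 0, 0], ![0, 0, 1, 0, 0, 0], ![0, 0, 0, 0, 0, 1], ![1, 0, 0, 0, 0, 0], ![0, 0, 0, 1, 0, 1], ![1, 1, 1, 1, 0, 0]],
    ![![0, 0, 0, 0, 0, 1], ![0, 0, 1, 0, 0, 0], ![0, 0, 0, 1, 0, 0], ![0, 1, 0, 0, 0, 0], ![1, 1, 1, 1, 0, 0], ![1, 0, 0, 0, 0, 1]],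
    ![![0, 1, 0, 0, 0, 0], ![0, 0, 0, 1, 0, 0], ![0, 0, 0, 0, 0, 1], ![1, 0, 0, 0, 0, 1], ![0, 0, 1, 0, 0, 0], ![1, 1, 1, 1, 0, 0]],
    ![![0, 1, 0, 0, 0, 0], ![0, 0, 1, 0, 0, 0], ![0, 0, 0, 0, 0, 1], ![1, 0, 0, 0, 0, 1], ![0, 0, 0, 1, 0, 0], ![1, 1, 1, 1, 0, 0]],
    ![![0, 0, 1, 0, 0, 0], ![0, 0, 0, 1, 0, 0], ![0, 0, 0, 0, 0, 1], ![1, 0, 0, 0, 0, 0], ![0, 1, 0, 0, 0, 0], ![1, 1, 1, 1, 0, 1]],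
    ![![0, 1, 0, 0, 0, 0], ![0, 0, 0, 1, 0, 0], ![0, 0, 0, 0, 0, 1], ![1, 0, 0, 0, 0, 0], ![0, 0, 1, 0, 0, 0], ![1, 1, 1, 1, 0, 1]],
    ![![0, 1, 0, 0, 0, 0], ![0, 0, 1, 0, 0, 0], ![0, 0, 0, 0, 0, 1], ![1, 0, 0, 0, 0, 0], ![0, 0, 0, 1, 0, 0], ![1, 1, 1, 1, 0, 1]],
    ![![0, 0, 0, 0, 0, 1], ![0, 0, 0, 1, 0, 0], ![1, 1, 1, 1, 0, 0], ![1, 0, 0, 0, 0, 0], ![0, 0, 1, 0, 0, 0], ![0, 1, 0, 0, 0, 1]],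
    ![![0, 0, 0, 0, 0, 1], ![0, 0, 0, 1, 0, 0], ![1, 1, 1, 1, 0, 0], ![1, 0, 0, 0, 0, 0], ![0, 1, 0, 0, 0, 0], ![0, 0, 1, 0, 0, 1]],
    ![![0, 1, 0, 0, 0, 1], ![0, 0, 1, 0, 0, 0], ![0, 0, 0, 1, 0, 0], ![1, 0, 0, 0, 0, 0], ![1, 1, 1, 1, 0, 0], ![0, 0, 0, 0, 0, 1]],
    ![![0, 1, 0, 0, 0, 1], ![0, 0, 1, 0, 0, 0], ![1, 1, 1, 1, 0, 0], ![1, 0, 0, 0, 0, 0], ![0, 0, 0, 1, 0, 0], ![0, 0, 0, 0, 0, 1]],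
    ![![0, 1, 0, 0, 0, 0], ![0, 0, 1, 0, 0, 1], ![0, 0, 0, 1, 0, 0], ![1, 0, 0, 0, 0, 0], ![1, 1, 1, 1, 0, 0], ![0, 0, 0, 0, 0, 1]],
    ![![0, 1, 0, 0, 0, 0], ![0, 0, 1, 0, 0, 1], ![1, 1, 1, 1, 0, 0], ![1, 0, 0, 0, 0, 0], ![0, 0, 0, 1, 0, 0], ![0, 0, 0, 0, 0, 1]],
    ![![0, 0, 0, 0, 0, 1], ![0, 0, 1, 0, 0, 0], ![1, 1, 1, 1, 0, 0], ![1, 0, 0, 0, 0, 0], ![0, 0, 0, 1, 0, 0], ![0, 1, 0, 0, 0, 1]],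
    ![![0, 0, 1, 0, 0, 0], ![0, 0, 0, 0, 0, 1], ![1, 1, 1, 1, 0, 0], ![1, 0, 0, 0, 0, 0], ![0, 1, 0, 0, 0, 0], ![0, 0, 0, 1, 0, 1]],
    ![![0, 1, 0, 0, 0, 1], ![0, 0, 1, 0, 0, 0], ![0, 0, 0, 1, 0, 0], ![1, 0, 0, 0, 0, 0], ![1, 1, 1, 1, 0, 0], ![0, 0, 0, 0, 0, 1]],
    ![![0, 1, 0, 0, 0, 1], ![0, 0, 0, 1, 0, 0], ![1, 1, 1, 1, 0, 0], ![1, 0, 0, 0, 0, 0], ![0, 0, 1, 0, 0, 0], ![0, 0, 0, 0, 0, 1]],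
    ![![0, 1, 0, 0, 0, 0], ![0, 0, 1, 0, 0, 0], ![0, 0, 0, 1, 0, 1], ![1, 0, 0, 0, 0, 0], ![1, 1, 1, 1, 0, 0], ![0, 0, 0, 0, 0, 1]],
    ![![0, 1, 0, 0, 0, 0], ![0, 0, 0, 1, 0, 1], ![1, 1, 1, 1, 0, 0], ![1, 0, 0, 0, 0, 0], ![0, 0, 1, 0, 0, 0], ![0, 0, 0, 0, 0, 1]],
    ![![0, 0, 0, 0, 0, 1], ![0, 0, 1, 0, 0, 0], ![0, 0, 0, 1, 0, 0], ![1, 0, 0, 0, 0, 0], ![1, 1, 1, 1, 0, 0], ![0, 1, 0, 0, 0, 1]],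
    ![![0, 0, 1, 0, 0, 0], ![0, 0, 0, 1, 0, 0], ![0, 0, 0, 0, 0, 1], ![1, 0, 0, 0, 0, 0], ![0, 1, 0, 0, 0, 0], ![1, 1, 1, 1, 0, 1]],
    ![![0, 1, 0, 0, 0, 1], ![0, 0, 1, 0, 0, 0], ![1, 1, 1, 1, 0, 0], ![1, 0, 0, 0, 0, 0], ![0, 0, 0, 1, 0, 0], ![0, 0, 0, 0, 0, 1]],
    ![![0, 1, 0, 0, 0, 1], ![0, 0, 0, 1, 0, 0], ![1, 1, 1, 1, 0, 0], ![1, 0, 0, 0, 0, 0], ![0, 0, 1, 0, 0, 0], ![0, 0, 0, 0, 0, 1]],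
    ![![0, 1, 0, 0, 0, 0], ![0, 0, 1, 0, 0, 0], ![1, 1, 1, 1, 0, 1], ![1, 0, 0, 0, 0, 0], ![0, 0, 0, 1, 0, 0], ![0, 0, 0, 0, 0, 1]],
    ![![0, 1, 0, 0, 0, 0], ![0, 0, 0, 1, 0, 0], ![1, 1, 1, 1, 0, 1], ![1, 0, 0, 0, 0, 0], ![0, 0, 1, 0, 0, 0], ![0, 0, 0, 0, 0, 1]],
    ![![0, 1, 0, 0, 0, 0], ![0, 0, 0, 0, 0, 1], ![1, 1, 1, 1, 0, 0], ![1, 0, 0, 0, 0, 0], ![0, 0, 1, 0, 0, 1], ![0, 0, 0, 1, 0, 0]],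
    ![![0, 1, 0, 0, 0, 0], ![0, 0, 0, 0, 0, 1], ![1, 1, 1, 1, 0, 0], ![1, 0, 0, 0, 0, 0], ![0, 0, 1, 0, 0, 0], ![0, 0, 0, 1, 0, 1]],
    ![![0, 1, 0, 0, 0, 0], ![0, 0, 1, 0, 0, 1], ![0, 0, 0, 1, 0, 0], ![1, 0, 0, 0, 0, 0], ![0, 0, 0, 0, 0, 1], ![1, 1, 1, 1, 0, 0]],
    ![![0, 1, 0, 0, 0, 0], ![0, 0, 1, 0, 0, 0], ![0, 0, 0, 1, 0, 1], ![1, 0, 0, 0, 0, 0], ![0, 0, 0, 0, 0, 1], ![1, 1, 1, 1, 0, 0]],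
    ![![0, 0, 1, 0, 0, 1], ![0, 0, 0, 1, 0, 0], ![1, 1, 1, 1, 0, 0], ![1, 0, 0, 0, 0, 0], ![0, 1, 0, 0, 0, 0], ![0, 0, 0, 0, 0, 1]],
    ![![0, 0, 1, 0, 0, 0], ![0, 0, 0, 1, 0, 1], ![1, 1, 1, 1, 0, 0], ![1, 0, 0, 0, 0, 0], ![0, 1, 0, 0, 0, 0], ![0, 0, 0, 0, 0, 1]],
    ![![0, 1, 0, 0, 0, 0], ![0, 0, 0, 0, 0, 1], ![0, 0, 0, 1, 0, 0], ![1, 0, 0, 0, 0, 0], ![0, 0, 1, 0, 0, 1], ![1, 1, 1, 1, 0, 0]],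
    ![![0, 1, 0, 0, 0, 0], ![0, 0, 0, 1, 0, 0], ![0, 0, 0, 0, 0, 1], ![1, 0, 0, 0, 0, 0], ![0, 0, 1, 0, 0, 0], ![1, 1, 1, 1, 0, 1]],
    ![![0, 1, 0, 0, 0, 0], ![0, 0, 1, 0, 0, 1], ![1, 1, 1, 1, 0, 0], ![1, 0, 0, 0, 0, 0], ![0, 0, 0, 0, 0, 1], ![0, 0, 0, 1, 0, 0]],
    ![![0, 1, 0, 0, 0, 0], ![0, 0, 1, 0, 0, 0], ![1, 1, 1, 1, 0, 1], ![1, 0, 0, 0, 0, 0], ![0, 0, 0, 1, 0, 0], ![0, 0, 0, 0, 0, 1]],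
    ![![0, 0, 1, 0, 0, 1], ![0, 0, 0, 1, 0, 0], ![1, 1, 1, 1, 0, 0], ![1, 0, 0, 0, 0, 0], ![0, 1, 0, 0, 0, 0], ![0, 0, 0, 0, 0, 1]],
    ![![0, 0, 1, 0, 0, 0], ![0, 0, 0, 1, 0, 0], ![1, 1, 1, 1, 0, 1], ![1, 0, 0, 0, 0, 0], ![0, 1, 0, 0, 0, 0], ![0, 0, 0, 0, 0, 1]],
    ![![0, 1, 0, 0, 0, 0], ![0, 0, 1, 0, 0, 0], ![0, 0, 0, 0, 0, 1], ![1, 0, 0, 0, 0, 0], ![0, 0, 0, 1, 0, 1], ![1, 1, 1, 1, 0, 0]],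
    ![![0, 1, 0, 0, 0, 0], ![0, 0, 1, 0, 0, 0], ![0, 0, 0, 0, 0, 1], ![1, 0, 0, 0, 0, 0], ![0, 0, 0, 1, 0, 0], ![1, 1, 1, 1, 0, 1]],
    ![![0, 1, 0, 0, 0, 0], ![0, 0, 0, 1, 0, 1], ![1, 1, 1, 1, 0, 0], ![1, 0, 0, 0, 0, 0], ![0, 0, 1, 0, 0, 0], ![0, 0, 0, 0, 0, 1]],
    ![![0, 1, 0, 0, 0, 0], ![0, 0, 0, 1, 0, 0], ![1, 1, 1, 1, 0, 1], ![1, 0, 0, 0, 0, 0], ![0, 0, 1, 0, 0, 0], ![0, 0, 0, 0, 0, 1]],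
    ![![0, 0, 1, 0, 0, 0], ![0, 0, 0, 1, 0, 1], ![1, 1, 1, 1, 0, 0], ![1, 0, 0, 0, 0, 0], ![0, 1, 0, 0, 0, 0], ![0, 0, 0, 0, 0, 1]],
    ![![0, 0, 1, 0, 0, 0], ![0, 0, 0, 1, 0, 0], ![1, 1, 1, 1, 0, 1], ![1, 0, 0, 0, 0, 0], ![0, 1, 0, 0, 0, 0], ![0, 0, 0, 0, 0, 1]]]

def k5tZ : Fin 60 → Fin 4 → Fin 12 → ZMod 2 :=
  ![![![0, 1, 0, 0, 0, 1, 0, 1, 0, 0, 1, 0], ![0, 1, 1, 0, 0, 0, 0, 1, 0, 0, 0, 1], ![0, 1, 0, 0, 0, 0, 1, 0, 1, 0, 1, 0], ![0, 1, 0, 1, 0, 0, 0, 0, 1, 0, 0, 1]],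
    ![![0, 1, 0, 1, 1, 0, 1, 0, 0, 0, 0, 0], ![0, 1, 0, 1, 0, 0, 0, 1, 0, 1, 0, 0], ![0, 1, 0, 0, 1, 0, 0, 0, 0, 0, 1, 1], ![0, 1, 1, 0, 0, 0, 0, 1, 0, 0, 0, 1]],
    ![![0, 1, 1, 0, 1, 1, 0, 0, 0, 0, 0, 0], ![0, 1, 1, 0, 0, 0, 0, 0, 1, 1, 0, 0], ![0, 1, 0, 0, 1, 0, 0, 0, 0, 0, 1, 1], ![0, 1, 0, 1, 0, 0, 0, 0, 1, 0, 0, 1]],
    ![![0, 0, 1, 1, 0, 1, 1, 0, 0, 0, 0, 0], ![0, 0, 1, 1, 0, 0, 0, 1, 1, 0, 0, 0], ![0, 0, 1, 0, 0, 1, 0, 0, 0, 0, 1, 1], ![0, 0, 1, 0, 1, 0, 0, 1, 0, 0, 1, 0]],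
    ![![0, 1, 0, 1, 1, 0, 1, 0, 0, 0, 0, 0], ![0, 1, 0, 1, 0, 0, 0, 1, 0, 1, 0, 0], ![0, 1, 0, 0, 1, 0, 0, 0, 0, 0, 1, 1], ![0, 1, 0, 0, 0, 1, 0, 1, 0, 0, 1, 0]],
    ![![0, 1, 1, 0, 1, 1, 0, 0, 0, 0, 0, 0], ![0, 1, 1, 0, 0, 0, 0, 0, 1, 1, 0, 0], ![0, 1, 0, 0, 1, 0, 0, 0, 0, 0, 1, 1], ![0, 1, 0, 0, 0, 0, 1, 0, 1, 0, 1, 0]],
    ![![1, 0, 0, 0, 0, 1, 0, 1, 0, 0, 1, 0], ![1, 0, 1, 0, 0, 1, 0, 0, 0, 0, 0, 1], ![1, 0, 0, 0, 0, 0, 1, 0, 1, 0, 1, 0], ![1, 0, 0, 1, 0, 0, 1, 0, 0, 0, 0, 1]],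
    ![![1, 0, 0, 1, 1, 0, 0, 0, 1, 0, 0, 0], ![1, 0, 0, 1, 0, 1, 0, 0, 0, 1, 0, 0], ![1, 0, 0, 0, 1, 0, 0, 0, 0, 0, 1, 1], ![1, 0, 1, 0, 0, 1, 0, 0, 0, 0, 0, 1]],
    ![![1, 0, 1, 0, 1, 0, 0, 1, 0, 0, 0, 0], ![1, 0, 1, 0, 0, 0, 1, 0, 0, 1, 0, 0], ![1, 0, 0, 0, 1, 0, 0, 0, 0, 0, 1, 1], ![1, 0, 0, 1, 0, 0, 1, 0, 0, 0, 0, 1]],
    ![![0, 0, 1, 1, 0, 1, 1, 0, 0, 0, 0, 0], ![0, 0, 1, 1, 0, 0, 0, 1, 1, 0, 0, 0], ![0, 0, 1, 0, 1, 1, 0, 0, 0, 0, 1, 0], ![0, 0, 1, 0, 0, 0, 0, 1, 0, 0, 1, 1]],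
    ![![1, 0, 0, 1, 1, 0, 0, 0, 1, 0, 0, 0], ![1, 0, 0, 1, 0, 1, 0, 0, 0, 1, 0, 0], ![1, 0, 0, 0, 1, 0, 0, 0, 0, 0, 1, 1], ![1, 0, 0, 0, 0, 1, 0, 1, 0, 0, 1, 0]],
    ![![1, 0, 1, 0, 1, 0, 0, 1, 0, 0, 0, 0], ![1, 0, 1, 0, 0, 0, 1, 0, 0, 1, 0, 0], ![1, 0, 0, 0, 1, 0, 0, 0, 0, 0, 1, 1], ![1, 0, 0, 0, 0, 0, 1, 0, 1, 0, 1, 0]],
    ![![1, 0, 0, 0, 1, 0, 0, 1, 0, 0, 1, 0], ![1, 1, 0, 0, 1, 0, 0, 0, 0, 0, 0, 1], ![1, 0, 0, 0, 0, 0, 1, 0, 0, 1, 1, 0], ![1, 0, 0, 1, 0, 0, 1, 0, 0, 0, 0, 1]],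
    ![![1, 0, 0, 1, 1, 0, 0, 0, 1, 0, 0, 0], ![1, 0, 0, 1, 0, 1, 0, 0, 0, 1, 0, 0], ![1, 1, 0, 0, 1, 0, 0, 0, 0, 0, 0, 1], ![1, 0, 0, 0, 0, 1, 0, 0, 0, 0, 1, 1]],
    ![![1, 1, 0, 0, 0, 1, 0, 1, 0, 0, 0, 0], ![1, 1, 0, 0, 0, 0, 1, 0, 1, 0, 0, 0], ![1, 0, 0, 0, 0, 1, 0, 0, 0, 0, 1, 1], ![1, 0, 0, 1, 0, 0, 1, 0, 0, 0, 0, 1]],
    ![![0, 1, 0, 1, 1, 0, 1, 0, 0, 0, 0, 0], ![0, 1, 0, 1, 0, 0, 0, 1, 0, 1, 0, 0], ![0, 1, 0, 0, 1, 1, 0, 0, 0, 0, 1, 0], ![0, 1, 0, 0, 0, 0, 0, 1, 0, 0, 1, 1]],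
    ![![1, 0, 0, 1, 1, 0, 0, 0, 1, 0, 0, 0], ![1, 0, 0, 1, 0, 1, 0, 0, 0, 1, 0, 0], ![1, 0, 0, 0, 1, 0, 0, 1, 0, 0, 1, 0], ![1, 0, 0, 0, 0, 1, 0, 0, 0, 0, 1, 1]],
    ![![1, 1, 0, 0, 0, 1, 0, 1, 0, 0, 0, 0], ![1, 1, 0, 0, 0, 0, 1, 0, 1, 0, 0, 0], ![1, 0, 0, 0, 0, 1, 0, 0, 0, 0, 1, 1], ![1, 0, 0, 0, 0, 0, 1, 0, 0, 1, 1, 0]],
    ![![1, 0, 0, 0, 1, 0, 0, 0, 1, 0, 1, 0], ![1, 1, 0, 0, 1, 0, 0, 0, 0, 0, 0, 1], ![1, 0, 0, 0, 0, 1, 0, 0, 0, 1, 1, 0], ![1, 0, 1, 0, 0, 1, 0, 0, 0, 0, 0, 1]],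
    ![![1, 0, 1, 0, 1, 0, 0, 1, 0, 0, 0, 0], ![1, 0, 1, 0, 0, 0, 1, 0, 0, 1, 0, 0], ![1, 1, 0, 0, 1, 0, 0, 0, 0, 0, 0, 1], ![1, 0, 0, 0, 0, 0, 1, 0, 0, 0, 1, 1]],
    ![![1, 1, 0, 0, 0, 1, 0, 1, 0, 0, 0, 0], ![1, 1, 0, 0, 0, 0, 1, 0, 1, 0, 0, 0], ![1, 0, 1, 0, 0, 1, 0, 0, 0, 0, 0, 1], ![1, 0, 0, 0, 0, 0, 1, 0, 0, 0, 1, 1]],
    ![![0, 1, 1, 0, 1, 1, 0, 0, 0, 0, 0, 0], ![0, 1, 1, 0, 0, 0, 0, 0, 1, 1, 0, 0], ![0, 1, 0, 0, 1, 0, 1, 0, 0, 0, 1, 0], ![0, 1, 0, 0, 0, 0, 0, 0, 1, 0, 1, 1]],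
    ![![1, 0, 1, 0, 1, 0, 0, 1, 0, 0, 0, 0], ![1, 0, 1, 0, 0, 0, 1, 0, 0, 1, 0, 0], ![1, 0, 0, 0, 1, 0, 0, 0, 1, 0, 1, 0], ![1, 0, 0, 0, 0, 0, 1, 0, 0, 0, 1, 1]],
    ![![1, 1, 0, 0, 0, 1, 0, 1, 0, 0, 0, 0], ![1, 1, 0, 0, 0, 0, 1, 0, 1, 0, 0, 0], ![1, 0, 0, 0, 0, 1, 0, 0, 0, 1, 1, 0], ![1, 0, 0, 0, 0, 0, 1, 0, 0, 0, 1, 1]],
    ![![1, 0, 1, 0, 0, 0, 0, 1, 0, 0, 1, 0], ![1, 0, 1, 0, 0, 1, 0, 0, 0, 0, 0, 1], ![1, 0, 0, 1, 0, 0, 0, 0, 1, 0, 1, 0], ![1, 0, 0, 1, 0, 0, 1, 0, 0, 0, 0, 1]],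
    ![![0, 1, 1, 0, 0, 1, 0, 0, 0, 0, 1, 0], ![0, 1, 1, 0, 0, 0, 0, 1, 0, 0, 0, 1], ![0, 1, 0, 1, 0, 0, 1, 0, 0, 0, 1, 0], ![0, 1, 0, 1, 0, 0, 0, 0, 1, 0, 0, 1]],
    ![![1, 1, 0, 0, 0, 0, 1, 0, 1, 0, 0, 0], ![1, 1, 0, 0, 0, 0, 0, 0, 0, 0, 1, 1], ![1, 0, 1, 0, 0, 0, 1, 0, 0, 1, 0, 0], ![1, 0, 1, 0, 0, 1, 0, 0, 0, 0, 0, 1]],
    ![![1, 1, 0, 0, 0, 1, 0, 1, 0, 0, 0, 0], ![1, 1, 0, 0, 0, 0, 0, 0, 0, 0, 1, 1], ![1, 0, 0, 1, 0, 1, 0, 0, 0, 1, 0, 0], ![1, 0, 0, 1, 0, 0, 1, 0, 0, 0, 0, 1]],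
    ![![1, 1, 0, 0, 0, 0, 1, 0, 1, 0, 0, 0], ![1, 1, 0, 0, 0, 0, 0, 0, 0, 0, 1, 1], ![1, 0, 1, 0, 0, 0, 1, 0, 0, 1, 0, 0], ![1, 0, 1, 0, 0, 0, 0, 1, 0, 0, 1, 0]],
    ![![1, 1, 0, 0, 0, 1, 0, 1, 0, 0, 0, 0], ![1, 1, 0, 0, 0, 0, 0, 0, 0, 0, 1, 1], ![1, 0, 0, 1, 0, 1, 0, 0, 0, 1, 0, 0], ![1, 0, 0, 1, 0, 0, 0, 0, 1, 0, 1, 0]],
    ![![1, 1, 0, 0, 0, 0, 0, 1, 0, 0, 1, 0], ![1, 1, 0, 0, 1, 0, 0, 0, 0, 0, 0, 1], ![1, 0, 0, 1, 0, 0, 0, 0, 0, 1, 1, 0], ![1, 0, 0, 1, 0, 0, 1, 0, 0, 0, 0, 1]],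
    ![![0, 1, 1, 0, 1, 0, 0, 0, 0, 0, 1, 0], ![0, 1, 1, 0, 0, 0, 0, 1, 0, 0, 0, 1], ![0, 1, 0, 1, 1, 0, 1, 0, 0, 0, 0, 0], ![0, 1, 0, 1, 0, 0, 0, 1, 0, 1, 0, 0]],
    ![![1, 1, 0, 0, 0, 0, 1, 0, 1, 0, 0, 0], ![1, 1, 0, 0, 1, 0, 0, 0, 0, 0, 0, 1], ![1, 0, 1, 0, 0, 0, 1, 0, 0, 1, 0, 0], ![1, 0, 1, 0, 0, 0, 0, 0, 0, 0, 1, 1]],
    ![![1, 0, 1, 0, 1, 0, 0, 1, 0, 0, 0, 0], ![1, 0, 1, 0, 0, 0, 0, 0, 0, 0, 1, 1], ![1, 0, 0, 1, 1, 0, 0, 0, 1, 0, 0, 0], ![1, 0, 0, 1, 0, 0, 1, 0, 0, 0, 0, 1]],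
    ![![1, 1, 0, 0, 0, 0, 1, 0, 1, 0, 0, 0], ![1, 1, 0, 0, 0, 0, 0, 1, 0, 0, 1, 0], ![1, 0, 1, 0, 0, 0, 1, 0, 0, 1, 0, 0], ![1, 0, 1, 0, 0, 0, 0, 0, 0, 0, 1, 1]],
    ![![1, 0, 1, 0, 1, 0, 0, 1, 0, 0, 0, 0], ![1, 0, 1, 0, 0, 0, 0, 0, 0, 0, 1, 1], ![1, 0, 0, 1, 1, 0, 0, 0, 1, 0, 0, 0], ![1, 0, 0, 1, 0, 0, 0, 0, 0, 1, 1, 0]],
    ![![1, 1, 0, 0, 0, 0, 0, 0, 1, 0, 1, 0], ![1, 1, 0, 0, 1, 0, 0, 0, 0, 0, 0, 1], ![1, 0, 1, 0, 0, 0, 0, 0, 0, 1, 1, 0], ![1, 0, 1, 0, 0, 1, 0, 0, 0, 0, 0, 1]],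
    ![![0, 1, 1, 0, 1, 1, 0, 0, 0, 0, 0, 0], ![0, 1, 1, 0, 0, 0, 0, 0, 1, 1, 0, 0], ![0, 1, 0, 1, 1, 0, 0, 0, 0, 0, 1, 0], ![0, 1, 0, 1, 0, 0, 0, 0, 1, 0, 0, 1]],
    ![![1, 1, 0, 0, 0, 1, 0, 1, 0, 0, 0, 0], ![1, 1, 0, 0, 1, 0, 0, 0, 0, 0, 0, 1], ![1, 0, 0, 1, 0, 1, 0, 0, 0, 1, 0, 0], ![1, 0, 0, 1, 0, 0, 0, 0, 0, 0, 1, 1]],
    ![![1, 0, 1, 0, 1, 0, 0, 1, 0, 0, 0, 0], ![1, 0, 1, 0, 0, 1, 0, 0, 0, 0, 0, 1], ![1, 0, 0, 1, 1, 0, 0, 0, 1, 0, 0, 0], ![1, 0, 0, 1, 0, 0, 0, 0, 0, 0, 1, 1]],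
    ![![1, 1, 0, 0, 0, 1, 0, 1, 0, 0, 0, 0], ![1, 1, 0, 0, 0, 0, 0, 0, 1, 0, 1, 0], ![1, 0, 0, 1, 0, 1, 0, 0, 0, 1, 0, 0], ![1, 0, 0, 1, 0, 0, 0, 0, 0, 0, 1, 1]],
    ![![1, 0, 1, 0, 1, 0, 0, 1, 0, 0, 0, 0], ![1, 0, 1, 0, 0, 0, 0, 0, 0, 1, 1, 0], ![1, 0, 0, 1, 1, 0, 0, 0, 1, 0, 0, 0], ![1, 0, 0, 1, 0, 0, 0, 0, 0, 0, 1, 1]],
    ![![1, 1, 0, 0, 1, 0, 0, 0, 0, 0, 0, 1], ![1, 1, 0, 0, 0, 1, 0, 0, 0, 0, 1, 0], ![1, 0, 0, 1, 1, 0, 0, 0, 1, 0, 0, 0], ![1, 0, 0, 1, 0, 1, 0, 0, 0, 1, 0, 0]],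
    ![![1, 0, 1, 0, 1, 0, 0, 0, 0, 0, 1, 0], ![1, 0, 1, 0, 0, 1, 0, 0, 0, 0, 0, 1], ![1, 0, 0, 1, 1, 0, 0, 0, 1, 0, 0, 0], ![1, 0, 0, 1, 0, 1, 0, 0, 0, 1, 0, 0]],
    ![![1, 1, 0, 0, 1, 0, 0, 0, 0, 0, 0, 1], ![1, 1, 0, 0, 0, 0, 1, 0, 1, 0, 0, 0], ![1, 0, 1, 0, 1, 0, 0, 0, 0, 0, 1, 0], ![1, 0, 1, 0, 0, 0, 1, 0, 0, 1, 0, 0]],
    ![![1, 1, 0, 0, 0, 1, 0, 0, 0, 0, 1, 0], ![1, 1, 0, 0, 0, 0, 1, 0, 1, 0, 0, 0], ![1, 0, 1, 0, 0, 1, 0, 0, 0, 0, 0, 1], ![1, 0, 1, 0, 0, 0, 1, 0, 0, 1, 0, 0]],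
    ![![0, 1, 1, 0, 1, 1, 0, 0, 0, 0, 0, 0], ![0, 1, 1, 0, 0, 0, 0, 0, 0, 0, 1, 1], ![0, 1, 0, 1, 1, 0, 1, 0, 0, 0, 0, 0], ![0, 1, 0, 1, 0, 0, 0, 0, 1, 0, 0, 1]],
    ![![0, 1, 1, 0, 1, 1, 0, 0, 0, 0, 0, 0], ![0, 1, 1, 0, 0, 0, 0, 0, 0, 0, 1, 1], ![0, 1, 0, 1, 1, 0, 1, 0, 0, 0, 0, 0], ![0, 1, 0, 1, 0, 0, 0, 0, 0, 1, 1, 0]],
    ![![1, 1, 0, 0, 1, 0, 0, 0, 0, 0, 0, 1], ![1, 1, 0, 0, 0, 0, 1, 0, 0, 0, 1, 0], ![1, 0, 1, 0, 1, 0, 0, 1, 0, 0, 0, 0], ![1, 0, 1, 0, 0, 0, 1, 0, 0, 1, 0, 0]],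
    ![![1, 0, 1, 0, 1, 0, 0, 1, 0, 0, 0, 0], ![1, 0, 1, 0, 0, 0, 1, 0, 0, 1, 0, 0], ![1, 0, 0, 1, 1, 0, 0, 0, 0, 0, 1, 0], ![1, 0, 0, 1, 0, 0, 1, 0, 0, 0, 0, 1]],
    ![![1, 1, 0, 0, 1, 0, 0, 0, 0, 0, 0, 1], ![1, 1, 0, 0, 0, 1, 0, 1, 0, 0, 0, 0], ![1, 0, 0, 1, 1, 0, 0, 0, 0, 0, 1, 0], ![1, 0, 0, 1, 0, 1, 0, 0, 0, 1, 0, 0]],
    ![![1, 1, 0, 0, 0, 1, 0, 1, 0, 0, 0, 0], ![1, 1, 0, 0, 0, 0, 1, 0, 0, 0, 1, 0], ![1, 0, 0, 1, 0, 1, 0, 0, 0, 1, 0, 0], ![1, 0, 0, 1, 0, 0, 1, 0, 0, 0, 0, 1]],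
    ![![0, 1, 1, 0, 1, 1, 0, 0, 0, 0, 0, 0], ![0, 1, 1, 0, 0, 0, 0, 1, 0, 0, 0, 1], ![0, 1, 0, 1, 1, 0, 1, 0, 0, 0, 0, 0], ![0, 1, 0, 1, 0, 0, 0, 0, 0, 0, 1, 1]],
    ![![0, 1, 1, 0, 1, 1, 0, 0, 0, 0, 0, 0], ![0, 1, 1, 0, 0, 0, 0, 0, 0, 1, 1, 0], ![0, 1, 0, 1, 1, 0, 1, 0, 0, 0, 0, 0], ![0, 1, 0, 1, 0, 0, 0, 0, 0, 0, 1, 1]],
    ![![1, 1, 0, 0, 0, 1, 0, 1, 0, 0, 0, 0], ![1, 1, 0, 0, 0, 0, 1, 0, 1, 0, 0, 0], ![1, 0, 1, 0, 0, 1, 0, 0, 0, 0, 0, 1], ![1, 0, 1, 0, 0, 0, 1, 0, 0, 0, 1, 0]],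
    ![![1, 1, 0, 0, 0, 1, 0, 1, 0, 0, 0, 0], ![1, 1, 0, 0, 0, 0, 1, 0, 1, 0, 0, 0], ![1, 0, 0, 1, 0, 1, 0, 0, 0, 0, 1, 0], ![1, 0, 0, 1, 0, 0, 1, 0, 0, 0, 0, 1]],
    ![![1, 0, 1, 0, 1, 0, 0, 1, 0, 0, 0, 0], ![1, 0, 1, 0, 0, 1, 0, 0, 0, 0, 0, 1], ![1, 0, 0, 1, 1, 0, 0, 0, 1, 0, 0, 0], ![1, 0, 0, 1, 0, 1, 0, 0, 0, 0, 1, 0]],
    ![![1, 0, 1, 0, 1, 0, 0, 1, 0, 0, 0, 0], ![1, 0, 1, 0, 0, 0, 1, 0, 0, 0, 1, 0], ![1, 0, 0, 1, 1, 0, 0, 0, 1, 0, 0, 0], ![1, 0, 0, 1, 0, 0, 1, 0, 0, 0, 0, 1]],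
    ![![0, 1, 1, 0, 1, 1, 0, 0, 0, 0, 0, 0], ![0, 1, 1, 0, 0, 0, 0, 1, 0, 0, 0, 1], ![0, 1, 0, 1, 1, 0, 1, 0, 0, 0, 0, 0], ![0, 1, 0, 1, 0, 0, 0, 1, 0, 0, 1, 0]],
    ![![0, 1, 1, 0, 1, 1, 0, 0, 0, 0, 0, 0], ![0, 1, 1, 0, 0, 0, 0, 0, 1, 0, 1, 0], ![0, 1, 0, 1, 1, 0, 1, 0, 0, 0, 0, 0], ![0, 1, 0, 1, 0, 0, 0, 0, 1, 0, 0, 1]]]

theorem k5tok : ∀ i : Fin 60, FinCert K33 K33s (tri K5 (k5tN i) (k5tJ i)) (k5tPh i)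
    ∅ (k5tA i) (k5tZ i) := by
  decide +kernel

theorem k5tcov : ∀ n j l : Fin 10, n ≠ j → (∀ i, K5 i n + K5 i j = K5 i l) →
    ∃ i, n = k5tN i ∧ j = k5tJ i := by
  decide +kernel

theorem tok_K5 {E : Type} [Fintype E] [DecidableEq E] :
    TOK K5 (fun M : BM E => NoF M ∧ ¬ HasMinor K33 M) := by
  intro M hM n j l hnj hl h
  obtain ⟨i, rfl, rfl⟩ := k5tcov n j l hnj hl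
  exact hM.2 (h.of_finCert compl_K33 (k5tok i))

end SEY.Sp
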