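import Pool.Agent.Helper73.SEY.SpSplit
import Pool.Agent.Helper73.SEY.SpCkR10
import Pool.Agent.Helper73.SEY.SpCkK5
import Pool.Agent.Helper73.SEY.SpCkK5s
import Pool.Agent.Helper73.SEY.SpCkTri

/-!
Splitter theorem for `R10` and `K5`.
-/

namespace SEY.Sp

open Finset BM

/-- The dual rows of `R10` (see `compl_R10`). -/
def R10d : Fin 5 → Fin 10 → ZMod 2 := fun i e => R10 i (r10perm e)

theorem nice_R10 : Nice R10 :=
  ⟨by decide +kernel, by decide +kernel, by decide +kernel⟩

theorem nice_R10d : Nice R10d :=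
  ⟨by decide +kernel, by decide +kernel, by decide +kernel⟩

theorem nice_K5 : Nice K5 :=
  ⟨by decide +kernel, by decide +kernel, by decide +kernel⟩

theorem nice_K5s : Nice K5s :=
  ⟨by decide +kernel, by decide +kernel, by decide +kernel⟩

theorem notri_R10 : ∀ n j l : Fin 10, n ≠ j → ¬ ∀ i, R10 i n + R10 i j = R10 i l := by
  decide +kernel

theorem notri_R10d : ∀ n j l : Fin 10, n ≠ j → ¬ ∀ i, R10d i n + R10d i j = R10d i l := by
  decide +kernel

theorem notri_K5s : ∀ n j l : Fin 10, n ≠ j → ¬ ∀ i, K5s i n + K5s i j = K5s i l := by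
  decide +kernel

/-- `r10perm` with the last element fixed. -/
def r10perm' : Equiv.Perm (Fin 11) where
  toFun := ![0, 1, 3, 4, 7, 9, 8, 6, 5, 2, 10]
  invFun := ![0, 1, 9, 2, 3, 8, 7, 4, 6, 5, 10]
  left_inv := by decide
  right_inv := by decide

variable {E : Type} [Fintype E] [DecidableEq E]

theorem eok_R10d : EOK R10d (fun M : BM E => NoF M.dual) := by
  intro M hM v _ h
  rw [noF_dual_iff] at hM
  have h1 : ext R10d v = fun i e => ext R10 v i (r10perm' e) := by
    funext i e
    revert e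
    unfold ext R10d
    generalize v i = x
    revert i x
    decide +kernel
  rw [h1] at h
  have h2 := eok_R10 M hM v (fun a ha => ?_) (h.perm r10perm')
  · rcases h2 with h2 | ⟨j, hj⟩
    · exact Or.inl h2
    · exact Or.inr ⟨r10perm.symm j, fun i => by rw [hj i]; simp [R10d]⟩
  · have h3 : ∀ a : Fin 5 → ZMod 2, (∀ j, ∑ i, a i * R10 i j = 0) → ∀ i, a i = 0 := by
      decide +kernel
    exact Finset.sum_eq_zero (fun i _ => by rw [h3 a ha i, zero_mul])

theorem R10_split' (M : BM E) (hTC : M.TC) (hF : NoF M) (h : HasMinor R10 M) :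
    IsIso R10 M :=
  splitter (P := fun N : BM E => NoF N) (duals := R10d) (fun _ _ hM hN => hM.minor hN)
    compl_R10 nice_R10 nice_R10d eok_R10 eok_R10d
    (fun _ _ n j l hn h => absurd h (notri_R10 n j l hn))
    (fun _ _ n j l hn h => absurd h (notri_R10d n j l hn)) (by norm_num) hTC hF h

theorem K5_split' (M : BM E) (hTC : M.TC) (hF : NoF M) (hK : ¬ HasMinor K33 M)
    (h : HasMinor K5 M) : IsIso K5 M :=
  splitter (P := fun N : BM E => NoF N ∧ ¬ HasMinor K33 N) (duals := K5s)
    (fun _ _ hM hN => ⟨hM.1.minor hN, fun h => hM.2 (h.of_minor hN)⟩)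
    compl_K5 nice_K5 nice_K5s eok_K5 eok_K5s tok_K5
    (fun _ _ n j l hn h => absurd h (notri_K5s n j l hn)) (by norm_num) hTC ⟨hF, hK⟩ h

end SEY.Sp
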