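import Pool.Agent.Helper73.SEY.SpDefs

/-!
SP-1 (labelled minors).  `f|C = 0` means `∀ c ∈ C, f c = 0`; `D = rest M φ C`.

lab_dual: the proof of `HasMinor.dual` in `Pool/Agent/Helper71/SEYApi2.lean` (same `φ`, the set
contracted in the dual is `rest M φ C`), copy it.  rest_rest: set theory.

lab_del, lab_con: the rows of `M.del {d}` are the masked rows of `M`, those of `M.con {c}` the rows
vanishing at `c`; `d` is outside `C` and the image of `φ`.

lab_con_of: contracting an element `d` of `D` which is a loop (every row with `f|C = 0` has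
`f d = 0`) or a coloop (`f|C = 0`, `f d = 1`, `f ∘ φ = 0`) of the minor with `d` kept: the rows of
`M.con {d}` vanishing on `C` have the same restrictions to `φ` (add the coloop row if `f d = 1`).
lab_del_of: deleting an element `c` of `C` which is a loop or a coloop if `c` is kept.

lab_update: if `d` is parallel to `φ j` in the minor with `d` kept then `d` can replace `φ j`.
-/

namespace SEY.Sp

open Finset BM

variable {E : Type} [Fintype E] [DecidableEq E] {r s k : ℕ} {rows : Fin r → Fin k → ZMod 2}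
  {duals : Fin s → Fin k → ZMod 2} {M : BM E} {φ : Fin k → E} {C : Finset E}

theorem lab_dual (hc : Compl rows duals) (h : Lab rows M φ C) :
    Lab duals M.dual φ (rest M φ C) := by
  have hφ := h.inj
  have hS := h.mem
  have hd := h.out
  set I : Finset E := Finset.univ.image φ with hI
  have hmI : ∀ i, φ i ∈ I := fun i => Finset.mem_image.2 ⟨i, Finset.mem_univ _, rfl⟩
  have hIm : ∀ e, e ∈ I → ∃ i, φ i = e := by
    intro e he
    obtain ⟨i, _, hi⟩ := Finset.mem_image.1 he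
    exact ⟨i, hi⟩
  have hrest : rest M φ C = (M.S \ C) \ I := rfl
  rw [hrest]
  refine ⟨hφ, hS, ?_, ?_, ?_, ?_⟩
  · exact Finset.sdiff_subset.trans Finset.sdiff_subset
  · intro i h'
    exact (Finset.mem_sdiff.1 h').2 (hmI i)
  · intro j
    let z' : E → ZMod 2 := fun e => ∑ i, if φ i = e then duals j i else 0
    have hz'φ : ∀ i, z' (φ i) = duals j i := by
      intro i
      show (∑ i', if φ i' = φ i then duals j i' else 0) = _
      rw [Finset.sum_eq_single i]
      · simp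
      · intro i' _ hne
        rw [if_neg (fun h' => hne (hφ h'))]
      · intro h'; exact absurd (Finset.mem_univ _) h'
    have hz'0 : ∀ e, e ∉ I → z' e = 0 := by
      intro e he
      refine Finset.sum_eq_zero (fun i _ => if_neg (fun h' => he ?_))
      rw [← h']; exact hmI i
    have hz'S : ∀ e, e ∉ M.S \ C → z' e = 0 := by
      intro e he
      refine hz'0 e (fun hI' => he ?_)
      obtain ⟨i, rfl⟩ := hIm e hI'
      exact Finset.mem_sdiff.2 ⟨hS i, hd i⟩
    have hz' : z' ∈ (M.con C).Z := by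
      refine ⟨hz'S, fun f hf => ?_⟩
      rw [mem_con] at hf
      rw [dot_eq_sum_map hφ (fun e he => by
        rw [hz'0 e (fun hI' => by
          obtain ⟨i, hi⟩ := hIm e hI'
          exact he i hi), mul_zero])]
      simp only [hz'φ]
      exact (hc.span _).1 (h.r2 f hf.1 hf.2) j
    rw [mem_Z_con'] at hz'
    obtain ⟨-, w, hw, hw2⟩ := hz'
    refine ⟨w, hw, fun e he => ?_, fun i => ?_⟩
    · rw [hw2 e (Finset.mem_sdiff.1 he).1]
      exact hz'0 e (Finset.mem_sdiff.1 he).2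
    · rw [hw2 (φ i) (Finset.mem_sdiff.2 ⟨hS i, hd i⟩), hz'φ]
  · intro z hz hz2
    rw [hc.symm.span (fun i => z (φ i))]
    intro i
    obtain ⟨f, hf, hfC, hfφ⟩ := h.r1 i
    have h3 := M.dot_eq_zero hf (show z ∈ M.Z from hz)
    rw [dot_eq_sum_map hφ (fun e he => by
      by_cases hS' : e ∈ M.S
      · by_cases hC' : e ∈ C
        · rw [hfC e hC', zero_mul]
        · rw [hz2 e (Finset.mem_sdiff.2 ⟨Finset.mem_sdiff.2 ⟨hS', hC'⟩, fun hI' => by
            obtain ⟨i, hi⟩ := hIm e hI'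
            exact he i hi⟩), mul_zero]
      · rw [M.supp f hf e hS', zero_mul])] at h3
    rw [← h3]
    exact Finset.sum_congr rfl (fun e _ => by rw [hfφ, mul_comm])

theorem rest_rest (h : Lab rows M φ C) : rest M.dual φ (rest M φ C) = C := by
  ext e
  rw [mem_rest, mem_rest]
  constructor
  · rintro ⟨h1, h2, h3⟩
    by_contra h4
    exact h2 ⟨h1, h4, h3⟩
  · intro he
    refine ⟨h.sub he, fun h' => h'.2.1 he, fun i hi => h.out i ?_⟩
    rw [hi]
    exact he

theorem lab_del (h : Lab rows M φ C) {d : E} (hd : d ∉ C) (hd' : ∀ i, φ i ≠ d) :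
    Lab rows (M.del {d}) φ C := by
  have hCm : ∀ c ∈ C, c ∈ M.S \ {d} := by
    intro c hc
    refine Finset.mem_sdiff.2 ⟨h.sub hc, fun h' => hd ?_⟩
    rw [← Finset.mem_singleton.1 h']
    exact hc
  have hφm : ∀ i, φ i ∈ M.S \ {d} := by
    intro i
    exact Finset.mem_sdiff.2 ⟨h.mem i, fun h' => hd' i (Finset.mem_singleton.1 h')⟩
  refine ⟨h.inj, hφm, hCm, h.out, ?_, ?_⟩
  · intro i
    obtain ⟨f, hf, hfC, hfφ⟩ := h.r1 i
    refine ⟨mask (M.S \ {d}) f, ⟨f, hf, rfl⟩, fun c hc => ?_, fun j => ?_⟩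
    · rw [mask_apply, if_pos (hCm c hc), hfC c hc]
    · rw [mask_apply, if_pos (hφm j), hfφ j]
  · rintro f ⟨g, hg, rfl⟩ hfC
    obtain ⟨a, ha⟩ := h.r2 g hg (fun c hc => by
      have h1 := hfC c hc
      rwa [mask_apply, if_pos (hCm c hc)] at h1)
    refine ⟨a, fun j => ?_⟩
    rw [mask_apply, if_pos (hφm j), ha j]

theorem lab_con (h : Lab rows M φ C) {c : E} (hc : c ∈ C) :
    Lab rows (M.con {c}) φ (C.erase c) := by
  have hall : ∀ f : E → ZMod 2, f c = 0 → (∀ x ∈ C.erase c, f x = 0) → ∀ x ∈ C, f x = 0 := by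
    intro f hfc hf x hx
    by_cases hxc : x = c
    · rw [hxc, hfc]
    · exact hf x (Finset.mem_erase.2 ⟨hxc, hx⟩)
  refine ⟨h.inj, ?_, ?_, ?_, ?_, ?_⟩
  · intro i
    refine Finset.mem_sdiff.2 ⟨h.mem i, fun h' => h.out i ?_⟩
    rw [Finset.mem_singleton.1 h']
    exact hc
  · intro x hx
    rw [Finset.mem_erase] at hx
    exact Finset.mem_sdiff.2 ⟨h.sub hx.2, fun h' => hx.1 (Finset.mem_singleton.1 h')⟩
  · intro i h'
    exact h.out i (Finset.mem_erase.1 h').2
  · intro i
    obtain ⟨f, hf, hfC, hfφ⟩ := h.r1 i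
    refine ⟨f, ⟨hf, fun x hx => ?_⟩, fun x hx => hfC x (Finset.mem_erase.1 hx).2, hfφ⟩
    rw [Finset.mem_singleton.1 hx]
    exact hfC c hc
  · rintro f ⟨hf, hfc⟩ hfC
    exact h.r2 f hf (hall f (hfc c (Finset.mem_singleton_self c)) hfC)

theorem lab_con_of (h : Lab rows M φ C) {d : E} (hd : d ∈ M.S) (hdC : d ∉ C)
    (hd' : ∀ i, φ i ≠ d)
    (hl : (∀ f ∈ M.R, (∀ c ∈ C, f c = 0) → f d = 0) ∨
      ∃ f ∈ M.R, (∀ c ∈ C, f c = 0) ∧ f d = 1 ∧ ∀ j, f (φ j) = 0) :
    Lab rows (M.con {d}) φ C := by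
  refine ⟨h.inj, ?_, ?_, h.out, ?_, ?_⟩
  · intro i
    exact Finset.mem_sdiff.2 ⟨h.mem i, fun h' => hd' i (Finset.mem_singleton.1 h')⟩
  · intro x hx
    refine Finset.mem_sdiff.2 ⟨h.sub hx, fun h' => hdC ?_⟩
    rw [← Finset.mem_singleton.1 h']
    exact hx
  · intro i
    obtain ⟨f, hf, hfC, hfφ⟩ := h.r1 i
    rcases zcases (f d) with h0 | h1
    · refine ⟨f, ⟨hf, fun x hx => ?_⟩, hfC, hfφ⟩
      rw [Finset.mem_singleton.1 hx]
      exact h0
    · rcases hl with hl | ⟨g, hg, hgC, hgd, hgφ⟩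
      · exact absurd (hl f hf hfC) (by rw [h1]; decide)
      · refine ⟨f + g, ⟨M.R.add_mem hf hg, fun x hx => ?_⟩, fun c hc => ?_, fun j => ?_⟩
        · rw [Finset.mem_singleton.1 hx, Pi.add_apply, h1, hgd]
          decide
        · rw [Pi.add_apply, hfC c hc, hgC c hc, add_zero]
        · rw [Pi.add_apply, hfφ j, hgφ j, add_zero]
  · rintro f ⟨hf, -⟩ hfC
    exact h.r2 f hf hfC

theorem lab_del_of (h : Lab rows M φ C) {c : E} (hc : c ∈ C)
    (hl : (∀ f ∈ M.R, (∀ x ∈ C.erase c, f x = 0) → f c = 0) ∨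
      ∃ f ∈ M.R, (∀ x ∈ C.erase c, f x = 0) ∧ f c = 1 ∧ ∀ j, f (φ j) = 0) :
    Lab rows (M.del {c}) φ (C.erase c) := by
  have hall : ∀ f : E → ZMod 2, f c = 0 → (∀ x ∈ C.erase c, f x = 0) → ∀ x ∈ C, f x = 0 := by
    intro f hfc hf x hx
    by_cases hxc : x = c
    · rw [hxc, hfc]
    · exact hf x (Finset.mem_erase.2 ⟨hxc, hx⟩)
  have hCm : ∀ x ∈ C.erase c, x ∈ M.S \ {c} := by
    intro x hx
    rw [Finset.mem_erase] at hx
    exact Finset.mem_sdiff.2 ⟨h.sub hx.2, fun h' => hx.1 (Finset.mem_singleton.1 h')⟩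
  have hφm : ∀ i, φ i ∈ M.S \ {c} := by
    intro i
    refine Finset.mem_sdiff.2 ⟨h.mem i, fun h' => h.out i ?_⟩
    rw [Finset.mem_singleton.1 h']
    exact hc
  refine ⟨h.inj, hφm, hCm, fun i h' => h.out i (Finset.mem_erase.1 h').2, ?_, ?_⟩
  · intro i
    obtain ⟨f, hf, hfC, hfφ⟩ := h.r1 i
    refine ⟨mask (M.S \ {c}) f, ⟨f, hf, rfl⟩, fun x hx => ?_, fun j => ?_⟩
    · rw [mask_apply, if_pos (hCm x hx), hfC x (Finset.mem_erase.1 hx).2]
    · rw [mask_apply, if_pos (hφm j), hfφ j]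
  · rintro f ⟨g, hg, rfl⟩ hfC
    have hgC : ∀ x ∈ C.erase c, g x = 0 := by
      intro x hx
      have h1 := hfC x hx
      rwa [mask_apply, if_pos (hCm x hx)] at h1
    have key : ∃ a : Fin r → ZMod 2, ∀ j, g (φ j) = ∑ i, a i * rows i j := by
      rcases zcases (g c) with h0 | h1
      · exact h.r2 g hg (hall g h0 hgC)
      · rcases hl with hl | ⟨g', hg', hgC', hgc', hgφ'⟩
        · exact absurd (hl g hg hgC) (by rw [h1]; decide)
        · obtain ⟨a, ha⟩ := h.r2 (g + g') (M.R.add_mem hg hg') (hall (g + g') (by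
            rw [Pi.add_apply, h1, hgc']
            decide) (fun x hx => by rw [Pi.add_apply, hgC x hx, hgC' x hx, add_zero]))
          refine ⟨a, fun j => ?_⟩
          rw [← ha j, Pi.add_apply, hgφ' j, add_zero]
    obtain ⟨a, ha⟩ := key
    refine ⟨a, fun j => ?_⟩
    rw [mask_apply, if_pos (hφm j), ha j]

theorem lab_update (h : Lab rows M φ C) {d : E} (hd : d ∈ M.S) (hdC : d ∉ C)
    (hd' : ∀ i, φ i ≠ d) {j : Fin k}
    (hp : ∀ f ∈ M.R, (∀ c ∈ C, f c = 0) → f d = f (φ j)) :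
    Lab rows M (Function.update φ j d) C := by
  have hval : ∀ f ∈ M.R, (∀ c ∈ C, f c = 0) → ∀ i, f (Function.update φ j d i) = f (φ i) := by
    intro f hf hfC i
    by_cases hij : i = j
    · subst hij
      rw [Function.update_self]
      exact hp f hf hfC
    · rw [Function.update_of_ne hij]
  refine ⟨?_, ?_, h.sub, ?_, ?_, ?_⟩
  · intro a b hab
    by_cases ha : a = j <;> by_cases hb : b = j
    · rw [ha, hb]
    · rw [ha, Function.update_self, Function.update_of_ne hb] at hab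
      exact absurd hab.symm (hd' b)
    · rw [hb, Function.update_self, Function.update_of_ne ha] at hab
      exact absurd hab (hd' a)
    · rw [Function.update_of_ne ha, Function.update_of_ne hb] at hab
      exact h.inj hab
  · intro i
    by_cases hij : i = j
    · rw [hij, Function.update_self]
      exact hd
    · rw [Function.update_of_ne hij]
      exact h.mem i
  · intro i
    by_cases hij : i = j
    · rw [hij, Function.update_self]
      exact hdC
    · rw [Function.update_of_ne hij]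
      exact h.out i
  · intro i
    obtain ⟨f, hf, hfC, hfφ⟩ := h.r1 i
    exact ⟨f, hf, hfC, fun l => by rw [hval f hf hfC, hfφ l]⟩
  · intro f hf hfC
    obtain ⟨a, ha⟩ := h.r2 f hf hfC
    exact ⟨a, fun l => by rw [hval f hf hfC, ha l]⟩

end SEY.Sp
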