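import Pool.Agent.Helper71.SEYApi2

/-!
SP-3 (connectivity lemmas).

lam_zero_mask: `lam_add_dR`: `dR X + dR (S \ X) = rk`, the two subspaces `RIn X`, `RIn (S \ X)` of `R`
meet in `0`, so their sum is `R`; if `f = g + h` then `mask X f = g`.
lam_zero_of_mask: `R` is the sum of the two subspaces, `lam_add_dR`.

uncross_B, uncross_A: `hR` says that no nonzero row is contained in `{d, m}`; so
`r (S \ {d}) = r (S \ {m}) = r (S \ {d, m}) = rk` (`r_add_dR_sdiff`, `dR_mono`).  Write everything in terms of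
ranks with `lam_del_add` and `lam_add_rk`, and use `r_submod` for `X1, X2` and for the complements
`S \ {d} \ X1`, `S \ {m} \ X2`, as in the proof of `uncross`.
(B) `d, m` outside `X1` and `X2`: (complement 1) ∪ (complement 2) = `S \ (X1 ∩ X2)`, the intersection is
`(S \ {d, m}) \ (X1 ∪ X2)`.
(A) `d ∉ X1`, `m ∈ X1`, `d ∈ X2`, `m ∉ X2`: the union of the complements is
`(S \ {d, m}) \ (X1 ∩ X2)`, their intersection is `S \ (X1 ∪ X2)`.

lam_con_series: `{c, m}` is a row, `c, m ∉ X`: `lam_con_add`; `r (X ∪ {c}) = r X + 1` because the row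
`ind {c, m}` vanishes on `X` (and not at `c`), `r ((S \ X) ∪ {c}) = r (S \ X)`.
-/

namespace SEY.Sp

open Finset BM

variable {E : Type} [Fintype E] [DecidableEq E] (M : BM E)

private theorem sup_RIn {X : Finset E} :
    Module.finrank (ZMod 2) ↥(M.RIn X ⊔ M.RIn (M.S \ X)) = M.dR X + M.dR (M.S \ X) := by
  have h := Submodule.finrank_sup_add_finrank_inf_eq (M.RIn X) (M.RIn (M.S \ X))
  rw [RIn_inf] at h
  have h1 : X ∩ (M.S \ X) = ∅ := by
    ext e
    simp
  rw [h1] at h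
  have h2 : Module.finrank (ZMod 2) ↥(M.RIn ∅) = 0 := M.dR_empty
  rw [h2, add_zero] at h
  exact h

theorem lam_zero_mask {X : Finset E} (hX : X ⊆ M.S) (h : M.lam X = 0) :
    ∀ f ∈ M.R, mask X f ∈ M.R := by
  intro f hf
  have h1 := M.lam_add_dR X
  rw [h, zero_add] at h1
  have h2 : M.RIn X ⊔ M.RIn (M.S \ X) = M.R := by
    apply Submodule.eq_of_le_of_finrank_eq
    · exact sup_le (fun g hg => hg.1) (fun g hg => hg.1)
    · rw [sup_RIn M, h1]
      rfl
  rw [← h2] at hf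
  obtain ⟨g, hg, k, hk, rfl⟩ := Submodule.mem_sup.1 hf
  have h3 : mask X g = g := mask_eq_self hg.2
  have h4 : mask X k = 0 := by
    rw [mask_eq_zero_iff]
    intro e he
    apply hk.2
    intro h5
    exact (mem_sdiff.1 h5).2 he
  rw [map_add, h3, h4, add_zero]
  exact hg.1

theorem lam_zero_of_mask {X : Finset E} (hX : X ⊆ M.S) (h : ∀ f ∈ M.R, mask X f ∈ M.R) :
    M.lam X = 0 := by
  have h1 := M.lam_add_dR X
  have h2 : M.R ≤ M.RIn X ⊔ M.RIn (M.S \ X) := by
    intro f hf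
    rw [Submodule.mem_sup]
    refine ⟨mask X f, ⟨h f hf, fun e he => ?_⟩, f - mask X f,
      ⟨M.R.sub_mem hf (h f hf), fun e he => ?_⟩, by abel⟩
    · rw [mask_apply, if_neg he]
    · rw [Pi.sub_apply, mask_apply]
      by_cases heX : e ∈ X
      · rw [if_pos heX, sub_self]
      · rw [if_neg heX, sub_zero]
        exact M.supp f hf e (fun h3 => he (mem_sdiff.2 ⟨h3, heX⟩))
  have h3 := Submodule.finrank_mono h2
  rw [sup_RIn M] at h3
  have h4 : M.rk = Module.finrank (ZMod 2) M.R := rfl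
  omega

private theorem r_two {d m : E} (hd : d ∈ M.S) (hm : m ∈ M.S)
    (hR : ∀ f ∈ M.R, (∀ e, e ≠ d → e ≠ m → f e = 0) → f = 0) :
    M.r (M.S \ {d, m}) = M.rk ∧ M.r (M.S \ {d}) = M.rk ∧ M.r (M.S \ {m}) = M.rk := by
  have h0 : M.dR {d, m} = 0 := by
    rw [dR_eq_zero_iff]
    intro f hf h1
    refine hR f hf (fun e h2 h3 => h1 e ?_)
    rw [mem_insert, mem_singleton]
    tauto
  have h1 := M.r_add_dR_sdiff (M.S \ {d, m})
  have h2 : M.dR (M.S \ (M.S \ {d, m})) = M.dR {d, m} := by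
    refine M.dR_congr ?_
    ext e
    simp only [mem_inter, mem_sdiff]
    tauto
  have h3 : M.r (M.S \ {d, m}) = M.rk := by omega
  have h4 : M.r (M.S \ {d, m}) ≤ M.r (M.S \ {d}) := by
    apply M.r_mono
    intro e he
    simp only [mem_sdiff, mem_insert, mem_singleton] at he ⊢
    tauto
  have h5 : M.r (M.S \ {d, m}) ≤ M.r (M.S \ {m}) := by
    apply M.r_mono
    intro e he
    simp only [mem_sdiff, mem_insert, mem_singleton] at he ⊢
    tauto
  have h6 := M.r_le_rk (M.S \ {d})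
  have h7 := M.r_le_rk (M.S \ {m})
  omega

theorem uncross_B {d m : E} (hd : d ∈ M.S) (hm : m ∈ M.S) (hdm : d ≠ m)
    (hR : ∀ f ∈ M.R, (∀ e, e ≠ d → e ≠ m → f e = 0) → f = 0) {X1 X2 : Finset E}
    (h1 : X1 ⊆ M.S) (h2 : X2 ⊆ M.S) (hd1 : d ∉ X1) (hm1 : m ∉ X1) (hd2 : d ∉ X2)
    (hm2 : m ∉ X2) :
    (M.del {d, m}).lam (X1 ∪ X2) + M.lam (X1 ∩ X2) ≤ (M.del {d}).lam X1 + (M.del {m}).lam X2 := by
  obtain ⟨r1, r2, r3⟩ := r_two M hd hm hR
  have g1 := M.lam_del_add {d, m} (X1 ∪ X2)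
  have g2 := M.lam_add_rk (X1 ∩ X2)
  have g3 := M.lam_del_add {d} X1
  have g4 := M.lam_del_add {m} X2
  have s1 := M.r_submod (X1 \ {d}) (X2 \ {m})
  have s2 := M.r_submod ((M.S \ X1) \ {d}) ((M.S \ X2) \ {m})
  have e1 : (X1 \ {d}) ∪ (X2 \ {m}) = (X1 ∪ X2) \ {d, m} := by
    ext e
    simp only [mem_union, mem_sdiff, mem_insert, mem_singleton]
    by_cases ed : e = d
    · subst ed; tauto
    · by_cases em : e = m
      · subst em; tauto
      · tauto
  have e2 : (X1 \ {d}) ∩ (X2 \ {m}) = X1 ∩ X2 := by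
    ext e
    simp only [mem_inter, mem_sdiff, mem_singleton]
    by_cases ed : e = d
    · subst ed; tauto
    · by_cases em : e = m
      · subst em; tauto
      · tauto
  have e3 : ((M.S \ X1) \ {d}) ∪ ((M.S \ X2) \ {m}) = M.S \ (X1 ∩ X2) := by
    ext e
    simp only [mem_union, mem_inter, mem_sdiff, mem_singleton]
    by_cases ed : e = d
    · subst ed; tauto
    · by_cases em : e = m
      · subst em; tauto
      · tauto
  have e4 : ((M.S \ X1) \ {d}) ∩ ((M.S \ X2) \ {m}) = (M.S \ (X1 ∪ X2)) \ {d, m} := by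
    ext e
    simp only [mem_union, mem_inter, mem_sdiff, mem_insert, mem_singleton]
    tauto
  rw [e1, e2] at s1
  rw [e3, e4] at s2
  omega

theorem uncross_A {d m : E} (hd : d ∈ M.S) (hm : m ∈ M.S) (hdm : d ≠ m)
    (hR : ∀ f ∈ M.R, (∀ e, e ≠ d → e ≠ m → f e = 0) → f = 0) {X1 X2 : Finset E}
    (h1 : X1 ⊆ M.S) (h2 : X2 ⊆ M.S) (hd1 : d ∉ X1) (hm1 : m ∈ X1) (hd2 : d ∈ X2)
    (hm2 : m ∉ X2) :
    (M.del {d, m}).lam (X1 ∩ X2) + M.lam (X1 ∪ X2) ≤ (M.del {d}).lam X1 + (M.del {m}).lam X2 := by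
  obtain ⟨r1, r2, r3⟩ := r_two M hd hm hR
  have g1 := M.lam_del_add {d, m} (X1 ∩ X2)
  have g2 := M.lam_add_rk (X1 ∪ X2)
  have g3 := M.lam_del_add {d} X1
  have g4 := M.lam_del_add {m} X2
  have s1 := M.r_submod (X1 \ {d}) (X2 \ {m})
  have s2 := M.r_submod ((M.S \ X1) \ {d}) ((M.S \ X2) \ {m})
  have e1 : (X1 \ {d}) ∪ (X2 \ {m}) = X1 ∪ X2 := by
    ext e
    simp only [mem_union, mem_sdiff, mem_singleton]
    by_cases ed : e = d
    · subst ed; tauto
    · by_cases em : e = m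
      · subst em; tauto
      · tauto
  have e2 : (X1 \ {d}) ∩ (X2 \ {m}) = (X1 ∩ X2) \ {d, m} := by
    ext e
    simp only [mem_inter, mem_sdiff, mem_insert, mem_singleton]
    tauto
  have e3 : ((M.S \ X1) \ {d}) ∪ ((M.S \ X2) \ {m}) = (M.S \ (X1 ∩ X2)) \ {d, m} := by
    ext e
    simp only [mem_union, mem_inter, mem_sdiff, mem_insert, mem_singleton]
    by_cases ed : e = d
    · subst ed; tauto
    · by_cases em : e = m
      · subst em; tauto
      · tauto
  have e4 : ((M.S \ X1) \ {d}) ∩ ((M.S \ X2) \ {m}) = M.S \ (X1 ∪ X2) := by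
    ext e
    simp only [mem_union, mem_inter, mem_sdiff, mem_singleton]
    by_cases ed : e = d
    · subst ed; tauto
    · by_cases em : e = m
      · subst em; tauto
      · tauto
  rw [e1, e2] at s1
  rw [e3, e4] at s2
  omega

theorem lam_con_series {c m : E} (hc : c ∈ M.S) (hm : m ∈ M.S) (hcm : c ≠ m)
    (hrow : ind {c, m} ∈ M.R) {X : Finset E} (hX : X ⊆ M.S) (hcX : c ∉ X) (hmX : m ∉ X) :
    M.lam X = (M.con {c}).lam X := by
  have g1 := M.lam_con_add {c} X
  have g2 := M.lam_add_rk X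
  have h0 : (ind {c, m} : E → ZMod 2) c ≠ 0 := by
    rw [ind_of_mem (by simp)]
    exact one_ne_zero
  have h1 : M.r {c} = 1 := M.r_singleton_of_ne hrow h0
  have h2 : (M.S \ X) ∪ {c} = M.S \ X := by
    ext e
    simp only [mem_union, mem_sdiff, mem_singleton]
    constructor
    · rintro (h3 | rfl)
      · exact h3
      · exact ⟨hc, hcX⟩
    · exact fun h3 => Or.inl h3
  have h3 : M.r (X ∪ {c}) ≤ M.r X + 1 := by
    rw [union_comm, ← insert_eq]
    exact M.r_insert_le X c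
  have h4 : M.dR (X ∪ {c})ᶜ < M.dR Xᶜ := by
    apply Submodule.finrank_lt_finrank_of_lt
    apply lt_of_le_of_ne
    · apply M.RIn_mono
      intro e he
      simp only [mem_compl, mem_union, mem_singleton] at he ⊢
      tauto
    · intro he
      have h5 : ind {c, m} ∈ M.RIn Xᶜ := by
        refine ⟨hrow, fun e he' => ind_of_notMem ?_⟩
        intro h6
        rw [mem_insert, mem_singleton] at h6
        rw [mem_compl, not_not] at he'
        rcases h6 with rfl | rfl
        · exact hcX he'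
        · exact hmX he'
      rw [← he] at h5
      exact h0 (h5.2 c (by simp))
  have h5 := M.r_add_dR X
  have h6 := M.r_add_dR (X ∪ {c})
  rw [h2] at g1
  omega

end SEY.Sp
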