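import Pool.Agent.Helper71.SEYApi2

/-!
Splitter lemma for binary matroids (R10_split, K5_split of project SEY): definitions.
-/

namespace SEY.Sp

open Finset BM

variable {E : Type} [Fintype E] [DecidableEq E] {r s k : ℕ}

/-- A labelled minor: `C` is contracted, everything outside `C` and the image of `φ` is deleted. -/
structure Lab (rows : Fin r → Fin k → ZMod 2) (M : BM E) (φ : Fin k → E) (C : Finset E) :
    Prop where
  inj : Function.Injective φ
  mem : ∀ i, φ i ∈ M.S
  sub : C ⊆ M.S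
  out : ∀ i, φ i ∉ C
  r1 : ∀ i, ∃ f ∈ M.R, (∀ c ∈ C, f c = 0) ∧ ∀ j, f (φ j) = rows i j
  r2 : ∀ f ∈ M.R, (∀ c ∈ C, f c = 0) → ∃ a : Fin r → ZMod 2, ∀ j, f (φ j) = ∑ i, a i * rows i j

omit [Fintype E] in
theorem hasMinor_iff {rows : Fin r → Fin k → ZMod 2} {M : BM E} :
    HasMinor rows M ↔ ∃ φ C, Lab rows M φ C := by
  constructor
  · rintro ⟨φ, C, h1, h2, h3, h4, h5, h6⟩
    exact ⟨φ, C, h1, h2, h3, h4, h5, h6⟩
  · rintro ⟨φ, C, h⟩
    exact ⟨φ, C, h.inj, h.mem, h.sub, h.out, h.r1, h.r2⟩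

/-- The deleted elements of a labelled minor. -/
def rest (M : BM E) (φ : Fin k → E) (C : Finset E) : Finset E := (M.S \ C) \ univ.image φ

omit [Fintype E] in
theorem mem_rest {M : BM E} {φ : Fin k → E} {C : Finset E} {e : E} :
    e ∈ rest M φ C ↔ e ∈ M.S ∧ e ∉ C ∧ ∀ i, φ i ≠ e := by
  unfold rest
  simp only [Finset.mem_sdiff, Finset.mem_image, Finset.mem_univ, true_and, not_exists]
  tauto

/-- One-element extension: the new column `v` (last). -/
def ext (rows : Fin r → Fin k → ZMod 2) (v : Fin r → ZMod 2) : Fin r → Fin (k + 1) → ZMod 2 :=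
  fun i => Fin.snoc (α := fun _ => ZMod 2) (rows i) (v i)

/-- The new element (last) is parallel to `n`. -/
def par (rows : Fin r → Fin k → ZMod 2) (n : Fin k) : Fin r → Fin (k + 1) → ZMod 2 :=
  ext rows (fun i => rows i n)

/-- `par rows n` together with a further element `c` (the last column) and the new row
`{j, e, c}`, where `e` (column `k`) is parallel to `n`. -/
def tri (rows : Fin r → Fin k → ZMod 2) (n j : Fin k) :
    Fin (r + 1) → Fin (k + 1 + 1) → ZMod 2 :=
  Fin.snoc (α := fun _ => Fin (k + 1 + 1) → ZMod 2)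
    (fun i => Fin.snoc (α := fun _ => ZMod 2) (par rows n i) 0)
    (Fin.snoc (α := fun _ => ZMod 2)
      (Fin.snoc (α := fun _ => ZMod 2) (fun x => if x = j then 1 else 0) 1) 1)

/-- `v` is a column of an extension of the (possibly dependent) rows. -/
def Cons (rows : Fin r → Fin k → ZMod 2) (v : Fin r → ZMod 2) : Prop :=
  ∀ a : Fin r → ZMod 2, (∀ j, ∑ i, a i * rows i j = 0) → ∑ i, a i * v i = 0

/-- In the class `P` the only one-element extensions of `rows` are loops and parallel elements. -/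
def EOK (rows : Fin r → Fin k → ZMod 2) (P : BM E → Prop) : Prop :=
  ∀ M : BM E, P M → ∀ v : Fin r → ZMod 2, Cons rows v → HasMinor (ext rows v) M →
    (∀ i, v i = 0) ∨ ∃ j, ∀ i, v i = rows i j

/-- For a triangle `n, j, l` the matroid `tri rows n j` is not a minor of a member of `P`. -/
def TOK (rows : Fin r → Fin k → ZMod 2) (P : BM E → Prop) : Prop :=
  ∀ M : BM E, P M → ∀ n j l : Fin k, n ≠ j → (∀ i, rows i n + rows i j = rows i l) →
    ¬ HasMinor (tri rows n j) M

/-- The pattern has no loops, no parallel pairs, no coloops, no series pairs. -/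
structure Nice (rows : Fin r → Fin k → ZMod 2) : Prop where
  col : ∀ n, ∃ i, rows i n ≠ 0
  sim : ∀ n j, n ≠ j → ∃ i, rows i n ≠ rows i j
  cos : ∀ a : Fin r → ZMod 2, (∀ j, ∑ i, a i * rows i j = 0) ∨
    3 ≤ (univ.filter fun j => ∑ i, a i * rows i j ≠ 0).card

/-- The conclusion of the parallel case: a set of connectivity at most 1 which contains `φ n`
and the last element and no other element of the pattern. -/
def Good (n : Fin k) (M : BM E) (φ : Fin (k + 1) → E) : Prop :=
  ∃ X ⊆ M.S, φ n.castSucc ∈ X ∧ φ (Fin.last k) ∈ X ∧ (∀ j, j ≠ n → φ j.castSucc ∉ X) ∧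
    M.lam X ≤ 1

/-- Induction hypothesis. -/
def IH (rows : Fin r → Fin k → ZMod 2) (P : BM E → Prop) (n : Fin k) (m : ℕ) : Prop :=
  ∀ M : BM E, P M → M.S.card < m → ∀ (φ : Fin (k + 1) → E) (C : Finset E),
    Lab (par rows n) M φ C → Good n M φ

end SEY.Sp
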