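import Pool.Agent.Helper73.SEY.SpLab

/-!
SP-2 (one-element extensions and coextensions of a labelled minor).

ext_dich: let `v i` be the value at `d` of a row `f i` with `f i|C = 0`, `f i ∘ φ = rows i`.  By `h0`
the value at `d` of any row `f` with `f|C = 0`, `f ∘ φ = ∑ a i rows i` is `∑ a i v i` (apply `h0` to
`f - ∑ a i f i`), and `Cons rows v` (apply `h0` to `∑ a i f i`).  So `Fin.snoc φ d` and `C` are a labelled
minor `ext rows v` and `EOK` applies.

coext_dich: apply `ext_dich` to `M.dual`, the rows `duals`, the contracted set `D = rest M φ C` and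
the element `c` (`lab_dual`).  Its hypothesis: let `z` be a cycle with `z|D = 0`, `z ∘ φ = 0`.  Then `z`
is zero outside `C`, and `0 = dot ρ z = z c` for the row `ρ` of the hypothesis.  Result: all cycles `z`
with `z|D = 0` have `z c = 0`, or for some `j` all such cycles have `z c = z (φ j)`.  Let
`w = ind {c}` or `w = ind {c, φ j}`.  `w` is zero on `D` and orthogonal to all cycles of `M.del D`
(`mem_Z_del`), so `w ∈ (M.del D).R` (`BM.mem_R_iff`), that is, there is a row `ρ` of `M` which agrees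
with `w` outside `D` (`mem_del'`).

exists_irr: first choose `C` of minimal cardinality with `Lab rows M φ C`: then each `c ∈ C` has a
row `ρ` as in (a) (otherwise all rows vanishing on `C.erase c` vanish at `c`, and `C.erase c` works).
Now among all `C` with `Lab rows M φ C` and (a) choose one of maximal cardinality.  (b): if
`d ∈ rest M φ C` and `f` is a row with `f|C = 0`, `f ∘ φ = 0`, `f d = 1` then `insert d C` works: the
rows vanishing on it have the same restrictions to `φ` (add `f`), for `c ∈ C` take `ρ` or `ρ + f`, for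
`d` take `f`.
-/

namespace SEY.Sp

open Finset BM

variable {E : Type} [Fintype E] [DecidableEq E] {r s k : ℕ} {rows : Fin r → Fin k → ZMod 2}
  {duals : Fin s → Fin k → ZMod 2} {M : BM E} {φ : Fin k → E} {C : Finset E} {P : BM E → Prop}

theorem ext_dich (hE : EOK rows P) (hM : P M) (h : Lab rows M φ C) {d : E} (hd : d ∈ M.S)
    (hdC : d ∉ C) (hd' : ∀ i, φ i ≠ d)
    (h0 : ∀ f ∈ M.R, (∀ c ∈ C, f c = 0) → (∀ j, f (φ j) = 0) → f d = 0) :
    (∀ f ∈ M.R, (∀ c ∈ C, f c = 0) → f d = 0) ∨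
      ∃ j, ∀ f ∈ M.R, (∀ c ∈ C, f c = 0) → f d = f (φ j) := by
  choose g hg hgC hgφ using h.r1
  have hsum : ∀ a : Fin r → ZMod 2, (∑ i, a i • g i) ∈ M.R := fun a =>
    Submodule.sum_mem _ fun i _ => M.R.smul_mem _ (hg i)
  have hsa : ∀ (a : Fin r → ZMod 2) (x : E), (∑ i, a i • g i) x = ∑ i, a i * g i x := by
    intro a x
    rw [Finset.sum_apply]
    rfl
  have claim : ∀ f ∈ M.R, (∀ c ∈ C, f c = 0) → ∀ a : Fin r → ZMod 2,
      (∀ j, f (φ j) = ∑ i, a i * rows i j) → f d = ∑ i, a i * g i d := by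
    intro f hf hfC a ha
    have h1 := h0 (f - ∑ i, a i • g i) (M.R.sub_mem hf (hsum a)) (fun c hc => by
      rw [Pi.sub_apply, hsa, hfC c hc, Finset.sum_eq_zero, sub_zero]
      intro i _
      rw [hgC i c hc, mul_zero]) (fun j => by
      rw [Pi.sub_apply, hsa, ha j, sub_eq_zero]
      exact Finset.sum_congr rfl fun i _ => by rw [hgφ])
    rw [Pi.sub_apply, hsa, sub_eq_zero] at h1
    exact h1
  have hcons : Cons rows (fun i => g i d) := by
    intro a ha
    rw [← hsa]
    refine h0 _ (hsum a) (fun c hc => ?_) (fun j => ?_)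
    · rw [hsa]
      exact Finset.sum_eq_zero fun i _ => by rw [hgC i c hc, mul_zero]
    · rw [hsa, ← ha j]
      exact Finset.sum_congr rfl fun i _ => by rw [hgφ]
  have hmin : HasMinor (ext rows (fun i => g i d)) M := by
    refine hasMinor_iff.2 ⟨Fin.snoc (α := fun _ => E) φ d, C, ?_, ?_, h.sub, ?_, ?_, ?_⟩
    · intro x y
      refine Fin.lastCases ?_ (fun x => ?_) x <;> refine Fin.lastCases ?_ (fun y => ?_) y
      · intro _; rfl
      · rw [Fin.snoc_last, Fin.snoc_castSucc]
        intro h1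
        exact absurd h1.symm (hd' y)
      · rw [Fin.snoc_last, Fin.snoc_castSucc]
        intro h1
        exact absurd h1 (hd' x)
      · rw [Fin.snoc_castSucc, Fin.snoc_castSucc]
        intro h1
        rw [h.inj h1]
    · intro i
      refine Fin.lastCases ?_ (fun x => ?_) i
      · rw [Fin.snoc_last]; exact hd
      · rw [Fin.snoc_castSucc]; exact h.mem x
    · intro i
      refine Fin.lastCases ?_ (fun x => ?_) i
      · rw [Fin.snoc_last]; exact hdC
      · rw [Fin.snoc_castSucc]; exact h.out x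
    · intro i
      refine ⟨g i, hg i, hgC i, fun j => ?_⟩
      unfold ext
      refine Fin.lastCases ?_ (fun x => ?_) j
      · rw [Fin.snoc_last, Fin.snoc_last]
      · rw [Fin.snoc_castSucc, Fin.snoc_castSucc, hgφ]
    · intro f hf hfC
      obtain ⟨a, ha⟩ := h.r2 f hf hfC
      refine ⟨a, fun j => ?_⟩
      unfold ext
      refine Fin.lastCases ?_ (fun x => ?_) j
      · simp only [Fin.snoc_last]
        exact claim f hf hfC a ha
      · simp only [Fin.snoc_castSucc]
        exact ha x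
  rcases hE M hM _ hcons hmin with h1 | ⟨j, h1⟩
  · left
    intro f hf hfC
    obtain ⟨a, ha⟩ := h.r2 f hf hfC
    rw [claim f hf hfC a ha]
    exact Finset.sum_eq_zero fun i _ => by rw [h1 i, mul_zero]
  · right
    refine ⟨j, fun f hf hfC => ?_⟩
    obtain ⟨a, ha⟩ := h.r2 f hf hfC
    rw [claim f hf hfC a ha, ha j]
    exact Finset.sum_congr rfl fun i _ => by rw [h1 i]

theorem coext_dich (hc : Compl rows duals) (hE : EOK duals (fun N : BM E => P N.dual))
    (hM : P M) (h : Lab rows M φ C) {c : E} (hcC : c ∈ C)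
    (h0 : ∃ ρ ∈ M.R, (∀ x ∈ C.erase c, ρ x = 0) ∧ ρ c = 1) :
    ∃ ρ ∈ M.R, (∀ x ∈ C.erase c, ρ x = 0) ∧ ρ c = 1 ∧
      ((∀ i, ρ (φ i) = 0) ∨ ∃ j, ∀ i, ρ (φ i) = if i = j then 1 else 0) := by
  have hcS : c ∈ M.S := h.sub hcC
  have hφc : ∀ i, φ i ≠ c := fun i hi => h.out i (hi ▸ hcC)
  have hCD : ∀ x ∈ C, x ∉ rest M φ C := fun x hx hxD => (mem_rest.1 hxD).2.1 hx
  have hφD : ∀ i, φ i ∉ rest M φ C := fun i hi => (mem_rest.1 hi).2.2 i rfl
  -- the lifting
  have hlift : ∀ w : E → ZMod 2, (∀ e, e ∉ M.S \ rest M φ C → w e = 0) →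
      (∀ z ∈ M.Z, (∀ e ∈ rest M φ C, z e = 0) → dot w z = 0) →
      ∃ ρ ∈ M.R, ∀ e ∈ M.S \ rest M φ C, ρ e = w e := by
    intro w hw hz
    have h1 : w ∈ (M.del (rest M φ C)).R := by
      refine (BM.mem_R_iff _).2 ⟨hw, fun z hzz => ?_⟩
      obtain ⟨h2, h3⟩ := (M.mem_Z_del).1 hzz
      exact hz z h2 h3
    exact ((M.mem_del').1 h1).2
  have key := ext_dich (rows := duals) (M := M.dual) (P := fun N : BM E => P N.dual) hE
    (by rw [BM.dual_dual]; exact hM) (lab_dual hc h) (d := c) hcS (hCD c hcC) hφc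
    (by
      intro z hz hzD hzφ
      obtain ⟨ρ, hρ, hρC, hρc⟩ := h0
      have hz' : z ∈ M.Z := hz
      have h1 := M.dot_eq_zero hρ hz'
      have h2 : dot ρ z = ∑ e ∈ ({c} : Finset E), ρ e * z e := by
        unfold dot
        symm
        refine Finset.sum_subset (Finset.subset_univ _) fun e _ he => ?_
        rw [Finset.mem_singleton] at he
        by_cases heC : e ∈ C
        · rw [hρC e (Finset.mem_erase.2 ⟨he, heC⟩), zero_mul]
        · by_cases heS : e ∈ M.S
          · by_cases heφ : ∃ i, φ i = e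
            · obtain ⟨i, rfl⟩ := heφ
              rw [hzφ i, mul_zero]
            · push Not at heφ
              rw [hzD e (mem_rest.2 ⟨heS, heC, heφ⟩), mul_zero]
          · rw [hz'.1 e heS, mul_zero]
      rw [h2, Finset.sum_singleton, hρc, one_mul] at h1
      exact h1)
  rcases key with h1 | ⟨j, h1⟩
  · obtain ⟨ρ, hρ, hρw⟩ := hlift (ind {c}) (fun e he => ind_of_notMem fun h2 => he (by
        rw [Finset.mem_singleton] at h2
        rw [h2, Finset.mem_sdiff]
        exact ⟨hcS, hCD c hcC⟩)) (fun z hz hzD => by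
        rw [ind_dot, Finset.sum_singleton]
        exact h1 z hz hzD)
    refine ⟨ρ, hρ, fun x hx => ?_, ?_, Or.inl fun i => ?_⟩
    · rw [Finset.mem_erase] at hx
      rw [hρw x (Finset.mem_sdiff.2 ⟨h.sub hx.2, hCD x hx.2⟩),
        ind_of_notMem (by simpa using hx.1)]
    · rw [hρw c (Finset.mem_sdiff.2 ⟨hcS, hCD c hcC⟩), ind_of_mem (Finset.mem_singleton_self c)]
    · rw [hρw _ (Finset.mem_sdiff.2 ⟨h.mem i, hφD i⟩), ind_of_notMem (by simpa using hφc i)]
  · obtain ⟨ρ, hρ, hρw⟩ := hlift (ind {c, φ j}) (fun e he => ind_of_notMem fun h2 => he (by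
        rw [Finset.mem_insert, Finset.mem_singleton] at h2
        rw [Finset.mem_sdiff]
        rcases h2 with rfl | rfl
        · exact ⟨hcS, hCD _ hcC⟩
        · exact ⟨h.mem j, hφD j⟩)) (fun z hz hzD => by
        rw [ind_dot, Finset.sum_pair (hφc j).symm, h1 z hz hzD]
        exact z_add_self _)
    refine ⟨ρ, hρ, fun x hx => ?_, ?_, Or.inr ⟨j, fun i => ?_⟩⟩
    · rw [Finset.mem_erase] at hx
      rw [hρw x (Finset.mem_sdiff.2 ⟨h.sub hx.2, hCD x hx.2⟩), ind_of_notMem]
      rw [Finset.mem_insert, Finset.mem_singleton]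
      rintro (h2 | h2)
      · exact hx.1 h2
      · exact h.out j (h2 ▸ hx.2)
    · rw [hρw c (Finset.mem_sdiff.2 ⟨hcS, hCD c hcC⟩), ind_of_mem (Finset.mem_insert_self _ _)]
    · rw [hρw _ (Finset.mem_sdiff.2 ⟨h.mem i, hφD i⟩)]
      by_cases hij : i = j
      · rw [if_pos hij, hij, ind_of_mem]
        exact Finset.mem_insert_of_mem (Finset.mem_singleton_self _)
      · rw [if_neg hij, ind_of_notMem]
        rw [Finset.mem_insert, Finset.mem_singleton]
        rintro (h2 | h2)
        · exact hφc i h2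
        · exact hij (h.inj h2)

/-- The condition (a). -/
private def Irr (M : BM E) (C : Finset E) : Prop :=
  ∀ c ∈ C, ∃ ρ ∈ M.R, (∀ x ∈ C.erase c, ρ x = 0) ∧ ρ c = 1

theorem exists_irr (h : Lab rows M φ C) : ∃ C' : Finset E, Lab rows M φ C' ∧
    (∀ c ∈ C', ∃ ρ ∈ M.R, (∀ x ∈ C'.erase c, ρ x = 0) ∧ ρ c = 1) ∧
    (∀ d ∈ rest M φ C', ∀ f ∈ M.R, (∀ c ∈ C', f c = 0) → (∀ j, f (φ j) = 0) → f d = 0) := by
  classical
  -- step 1
  have step1 : ∃ C₁ : Finset E, Lab rows M φ C₁ ∧ Irr M C₁ := by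
    obtain ⟨C₁, hC₁, hmin⟩ := Finset.exists_min_image
      (Finset.univ.filter fun C : Finset E => Lab rows M φ C) Finset.card
      ⟨C, Finset.mem_filter.2 ⟨Finset.mem_univ _, h⟩⟩
    have hL := (Finset.mem_filter.1 hC₁).2
    refine ⟨C₁, hL, fun c hc => ?_⟩
    by_contra hno
    push Not at hno
    have h1 : Lab rows M φ (C₁.erase c) := by
      refine ⟨hL.inj, hL.mem, (Finset.erase_subset _ _).trans hL.sub,
        fun i hi => hL.out i (Finset.mem_of_mem_erase hi), fun i => ?_, fun f hf hfC => ?_⟩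
      · obtain ⟨f, hf, hfC, hfφ⟩ := hL.r1 i
        exact ⟨f, hf, fun x hx => hfC x (Finset.mem_of_mem_erase hx), hfφ⟩
      · refine hL.r2 f hf fun x hx => ?_
        by_cases hxc : x = c
        · rw [hxc]
          exact z_ne_one.1 (hno f hf hfC)
        · exact hfC x (Finset.mem_erase.2 ⟨hxc, hx⟩)
    have h2 := hmin _ (Finset.mem_filter.2 ⟨Finset.mem_univ _, h1⟩)
    rw [Finset.card_erase_of_mem hc] at h2
    have := Finset.card_pos.2 ⟨c, hc⟩
    omega
  obtain ⟨C₁, hL₁, hI₁⟩ := step1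
  obtain ⟨C₂, hC₂, hmax⟩ := Finset.exists_max_image
    (Finset.univ.filter fun C : Finset E => Lab rows M φ C ∧ Irr M C) Finset.card
    ⟨C₁, Finset.mem_filter.2 ⟨Finset.mem_univ _, hL₁, hI₁⟩⟩
  obtain ⟨hL, hI⟩ := (Finset.mem_filter.1 hC₂).2
  refine ⟨C₂, hL, hI, fun d hd f hf hfC hfφ => ?_⟩
  by_contra hfd
  replace hfd : f d = 1 := z_ne_zero.1 hfd
  obtain ⟨hdS, hdC, hdφ⟩ := mem_rest.1 hd
  have h1 : Lab rows M φ (insert d C₂) := by
    refine ⟨hL.inj, hL.mem, Finset.insert_subset hdS hL.sub, fun i hi => ?_, fun i => ?_,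
      fun g hg hgC => hL.r2 g hg fun x hx => hgC x (Finset.mem_insert_of_mem hx)⟩
    · rcases Finset.mem_insert.1 hi with h2 | h2
      · exact hdφ i h2
      · exact hL.out i h2
    · obtain ⟨g, hg, hgC, hgφ⟩ := hL.r1 i
      rcases zcases (g d) with h2 | h2
      · refine ⟨g, hg, fun x hx => ?_, hgφ⟩
        rcases Finset.mem_insert.1 hx with rfl | hx
        · exact h2
        · exact hgC x hx
      · refine ⟨g + f, M.R.add_mem hg hf, fun x hx => ?_, fun j => ?_⟩
        · rcases Finset.mem_insert.1 hx with rfl | hx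
          · rw [Pi.add_apply, h2, hfd]; exact z_add_self 1
          · rw [Pi.add_apply, hgC x hx, hfC x hx, add_zero]
        · rw [Pi.add_apply, hfφ j, add_zero, hgφ j]
  have h2 : Irr M (insert d C₂) := by
    intro c hc
    rcases Finset.mem_insert.1 hc with rfl | hc
    · refine ⟨f, hf, fun x hx => ?_, hfd⟩
      rw [Finset.mem_erase, Finset.mem_insert] at hx
      exact hfC x (hx.2.resolve_left hx.1)
    · obtain ⟨ρ, hρ, hρC, hρc⟩ := hI c hc
      have hcd : c ≠ d := fun h3 => hdC (h3 ▸ hc)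
      rcases zcases (ρ d) with h3 | h3
      · refine ⟨ρ, hρ, fun x hx => ?_, hρc⟩
        rw [Finset.mem_erase, Finset.mem_insert] at hx
        rcases hx.2 with rfl | hx2
        · exact h3
        · exact hρC x (Finset.mem_erase.2 ⟨hx.1, hx2⟩)
      · refine ⟨ρ + f, M.R.add_mem hρ hf, fun x hx => ?_, ?_⟩
        · rw [Finset.mem_erase, Finset.mem_insert] at hx
          rcases hx.2 with rfl | hx2
          · rw [Pi.add_apply, h3, hfd]; exact z_add_self 1
          · rw [Pi.add_apply, hρC x (Finset.mem_erase.2 ⟨hx.1, hx2⟩), hfC x hx2, add_zero]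
        · rw [Pi.add_apply, hρc, hfC c hc, add_zero]
  have h3 := hmax _ (Finset.mem_filter.2 ⟨Finset.mem_univ _, h1, h2⟩)
  rw [Finset.card_insert_of_notMem hdC] at h3
  omega

end SEY.Sp
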