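import Pool.Agent.Helper73.SEY.SpDich
import Pool.Agent.Helper73.SEY.SpUncr

/-!
SP-4 (parallel case, first half).  `φ : Fin (k + 1) → E`, the pattern is `par rows n`: the last
element `φ (Fin.last k)` is parallel to `φ n.castSucc`.  Write `e = φ (Fin.last k)`, `φ' = φ ∘ castSucc`.

lab_init: (r1) and (r2) for `φ'` from those for `φ`: `par rows n i j.castSucc = rows i j`
(`Fin.snoc_castSucc`).
par_last: by (r2), `f e = ∑ a i * par rows n i (last k) = ∑ a i * rows i n = f (φ' n)`.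
par_wt: by (r2) `f ∘ φ' = ∑ a i rows i`, and `Nice.cos`: if `f ∘ φ' ≠ 0` then it has at least 3
nonzero values; if it vanishes outside `{n, j}` it has at most 2, so `f ∘ φ' = 0`.

step_Q: `IH` for `M.del {v}` and `M.con {v}` (`P` is closed under `Minor`: `minor_del`, `minor_con`; the
ground sets have one element less) gives `X1` with `(M.del {v}).lam X1 ≤ 1`, `X2` with
`(M.con {v}).lam X2 ≤ 1`, both contain `φ' n` and `e` and no other `φ' j`, and not `v`.  `uncross`
(Helper71/SEYApi): `M.lam (X1 ∩ X2) + M.lam (insert v (X1 ∪ X2)) ≤ 3`, so one of the two sets has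
`lam ≤ 1`, and it is good (`v` is not `φ j`).

step_D: `d ∈ rest M φ C`.  Let `h0` be: every `f ∈ M.R` with `f|C = 0`, `f ∘ φ = 0` has `f d = 0`.  If `h0`
fails or all `f` with `f|C = 0` have `f d = 0` then `step_Q` with `lab_del`, `lab_con_of`.  Otherwise
`ext_dich` (for `lab_init h`; its `h0` by `par_last`) gives `j : Fin k` with `f d = f (φ' j)` for all
`f|C = 0`.  Let `m = φ' j`.  `X1`: `IH` for `M.del {d}`, `φ`, `C` (`lab_del`).  `X2`: `IH` for
`M.del {m}`, `Function.update φ j.castSucc d`, `C` (`lab_update`, then `lab_del`).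
hR of `uncross_A`/`uncross_B`: if `f ∈ M.R` vanishes outside `{d, m}` then `f|C = 0` and `f ∘ φ'` is
zero outside `j`, so by `par_wt` `f ∘ φ' = 0`, `f m = 0`, `f ∘ φ = 0` (`par_last`) and `f d = 0` by `h0`.
* `j ≠ n`: `X1, X2` contain `φ' n`, `e` and not `d`, `m`, `φ' i` (`i ≠ n`).  `uncross_B`.  If
  `M.lam (X1 ∩ X2) ≤ 1`: good.  Otherwise `(M.del {d, m}).lam (X1 ∪ X2) = 0`.  Take `f` with
  `f|C = 0`, `f (φ' n) = 1` (`Nice.col`, (r1)).  By `lam_zero_mask` (for `M.del {d, m}` and the row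
  `mask _ f`) there is `f' ∈ M.R` which agrees with `mask (X1 ∪ X2) f` outside `{d, m}`.  It
  vanishes on `C`, and `f' (φ' n) = 1`, `f' (φ' i) = 0` for `i ≠ n, j`: contradiction to `par_wt`.
* `j = n`: `m = φ' n`.  `X1` contains `m`, `e`, not `d`; `X2` contains `d`, `e`, not `m`; both do not
  contain `φ' i` for `i ≠ n`.  `uncross_A`.  If `M.lam (X1 ∪ X2) ≤ 1`: good.  Otherwise
  `(M.del {d, m}).lam (X1 ∩ X2) = 0`, and `f` as before (`f e = 1`) gives `f' ∈ M.R` which vanishes on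
  `C`, `f' e = 1`, `f' (φ' i) = 0` for `i ≠ n`: by `par_wt` `f' ∘ φ' = 0`, by `par_last` `f' e = 0`.
-/

namespace SEY.Sp

open Finset BM

variable {E : Type} [Fintype E] [DecidableEq E] {r s k : ℕ} {rows : Fin r → Fin k → ZMod 2}
  {duals : Fin s → Fin k → ZMod 2} {M : BM E} {P : BM E → Prop} {n : Fin k}
  {φ : Fin (k + 1) → E} {C : Finset E}

theorem par_castSucc (rows : Fin r → Fin k → ZMod 2) (n : Fin k) (i : Fin r) (j : Fin k) :
    par rows n i j.castSucc = rows i j := by
  simp [par, ext]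

theorem par_last' (rows : Fin r → Fin k → ZMod 2) (n : Fin k) (i : Fin r) :
    par rows n i (Fin.last k) = rows i n := by
  simp [par, ext]

theorem lab_init (h : Lab (par rows n) M φ C) : Lab rows M (fun j => φ j.castSucc) C := by
  refine ⟨fun a b hab => Fin.castSucc_injective _ (h.inj hab), fun i => h.mem _, h.sub,
    fun i => h.out _, fun i => ?_, fun f hf hfC => ?_⟩
  · obtain ⟨f, hf, hfC, hfφ⟩ := h.r1 i
    exact ⟨f, hf, hfC, fun j => by rw [hfφ, par_castSucc]⟩
  · obtain ⟨a, ha⟩ := h.r2 f hf hfC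
    refine ⟨a, fun j => ?_⟩
    rw [ha]
    exact Finset.sum_congr rfl (fun i _ => by rw [par_castSucc])

theorem par_last (h : Lab (par rows n) M φ C) :
    ∀ f ∈ M.R, (∀ c ∈ C, f c = 0) → f (φ (Fin.last k)) = f (φ n.castSucc) := by
  intro f hf hfC
  obtain ⟨a, ha⟩ := h.r2 f hf hfC
  rw [ha, ha]
  exact Finset.sum_congr rfl (fun i _ => by rw [par_castSucc, par_last'])

theorem par_wt (hN : Nice rows) (h : Lab (par rows n) M φ C) (i j : Fin k) :
    ∀ f ∈ M.R, (∀ c ∈ C, f c = 0) → (∀ x, x ≠ i → x ≠ j → f (φ x.castSucc) = 0) →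
      ∀ x, f (φ x) = 0 := by
  intro f hf hfC hfx
  have key : ∀ x : Fin k, f (φ x.castSucc) = 0 := by
    obtain ⟨a, ha⟩ := (lab_init h).r2 f hf hfC
    rcases hN.cos a with h1 | h1
    · intro x
      rw [ha x]; exact h1 x
    · exfalso
      have hsub : (univ.filter fun x : Fin k => ∑ i, a i * rows i x ≠ 0) ⊆ {i, j} := by
        intro x hx
        rw [Finset.mem_filter] at hx
        rw [Finset.mem_insert, Finset.mem_singleton]
        by_contra hne
        push Not at hne
        exact hx.2 (by rw [← ha x]; exact hfx x hne.1 hne.2)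
      have h2 := Finset.card_le_card hsub
      have h3 := Finset.card_le_two (a := i) (b := j)
      omega
  intro x
  refine Fin.lastCases ?_ (fun x => key x) x
  rw [par_last h f hf hfC]
  exact key n

omit [Fintype E] in
theorem card_sdiff_lt {S : Finset E} {v : E} (hv : v ∈ S) : (S \ {v}).card < S.card := by
  refine Finset.card_lt_card ?_
  rw [Finset.ssubset_iff_of_subset Finset.sdiff_subset]
  exact ⟨v, hv, by simp⟩

theorem step_Q (hP : ∀ M N : BM E, P M → Minor N M → P N) (hM : P M)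
    (hI : IH rows P n M.S.card) {v : E} (hv : v ∈ M.S) (hv' : ∀ i, φ i ≠ v) {C1 C2 : Finset E}
    (h1 : Lab (par rows n) (M.del {v}) φ C1) (h2 : Lab (par rows n) (M.con {v}) φ C2) :
    Good n M φ := by
  obtain ⟨X1, s1, n1, l1, o1, m1⟩ :=
    hI (M.del {v}) (hP _ _ hM (minor_del M {v})) (card_sdiff_lt hv) φ C1 h1
  obtain ⟨X2, s2, n2, l2, o2, m2⟩ :=
    hI (M.con {v}) (hP _ _ hM (minor_con M {v})) (card_sdiff_lt hv) φ C2 h2
  have s1' : X1 ⊆ M.S \ {v} := s1
  have s2' : X2 ⊆ M.S \ {v} := s2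
  have v1 : v ∉ X1 := fun hx => (Finset.mem_sdiff.1 (s1' hx)).2 (Finset.mem_singleton_self v)
  have v2 : v ∉ X2 := fun hx => (Finset.mem_sdiff.1 (s2' hx)).2 (Finset.mem_singleton_self v)
  have hu := M.uncross hv v1 v2
  rcases Nat.lt_or_ge 1 (M.lam (X1 ∩ X2)) with hlt | hle
  · refine ⟨insert v (X1 ∪ X2), ?_, ?_, ?_, ?_, by omega⟩
    · intro x hx
      rw [Finset.mem_insert, Finset.mem_union] at hx
      rcases hx with rfl | hx | hx
      · exact hv
      · exact (Finset.mem_sdiff.1 (s1' hx)).1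
      · exact (Finset.mem_sdiff.1 (s2' hx)).1
    · exact Finset.mem_insert_of_mem (Finset.mem_union_left _ n1)
    · exact Finset.mem_insert_of_mem (Finset.mem_union_left _ l1)
    · intro j hj hx
      rw [Finset.mem_insert, Finset.mem_union] at hx
      rcases hx with hx | hx | hx
      · exact hv' _ hx
      · exact o1 j hj hx
      · exact o2 j hj hx
  · refine ⟨X1 ∩ X2, ?_, Finset.mem_inter.2 ⟨n1, n2⟩, Finset.mem_inter.2 ⟨l1, l2⟩, ?_, hle⟩
    · intro x hx
      exact (Finset.mem_sdiff.1 (s1' (Finset.mem_inter.1 hx).1)).1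
    · intro j hj hx
      exact o1 j hj (Finset.mem_inter.1 hx).1

theorem zero_mask_row {d m : E} {X : Finset E} (hX : X ⊆ M.S \ {d, m})
    (h : (M.del {d, m}).lam X = 0) {f : E → ZMod 2} (hf : f ∈ M.R) :
    ∃ g ∈ M.R, ∀ e ∈ M.S, e ≠ d → e ≠ m → g e = if e ∈ X then f e else 0 := by
  have h1 := lam_zero_mask (M.del {d, m}) (X := X) hX h (mask (M.S \ {d, m}) f) ⟨f, hf, rfl⟩
  rw [mem_del'] at h1
  obtain ⟨-, g, hg, hg'⟩ := h1
  refine ⟨g, hg, fun e he hd hm => ?_⟩
  have h2 : e ∈ M.S \ {d, m} := by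
    rw [Finset.mem_sdiff, Finset.mem_insert, Finset.mem_singleton]
    exact ⟨he, fun h => h.elim hd hm⟩
  rw [hg' e h2, mask_apply, mask_apply, if_pos h2]

theorem step_D (hP : ∀ M N : BM E, P M → Minor N M → P N) (hN : Nice rows) (hE : EOK rows P)
    (hM : P M) (hI : IH rows P n M.S.card) (h : Lab (par rows n) M φ C) {d : E}
    (hd : d ∈ rest M φ C) : Good n M φ := by
  rw [mem_rest] at hd
  obtain ⟨hdS, hdC, hd'⟩ := hd
  have hl := lab_del h hdC hd'
  by_cases hloop : ∀ f ∈ M.R, (∀ c ∈ C, f c = 0) → f d = 0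
  · exact step_Q hP hM hI hdS hd' hl (lab_con_of h hdS hdC hd' (Or.inl hloop))
  by_cases h0 : ∀ f ∈ M.R, (∀ c ∈ C, f c = 0) → (∀ j, f (φ j) = 0) → f d = 0
  swap
  · push Not at h0
    obtain ⟨f, hf, hfC, hfφ, hfd⟩ := h0
    exact step_Q hP hM hI hdS hd' hl
      (lab_con_of h hdS hdC hd' (Or.inr ⟨f, hf, hfC, z_ne_zero.1 hfd, hfφ⟩))
  have h0' : ∀ f ∈ M.R, (∀ c ∈ C, f c = 0) → (∀ j : Fin k, f (φ j.castSucc) = 0) → f d = 0 := by
    intro f hf hfC hφ
    refine h0 f hf hfC (fun j => ?_)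
    refine Fin.lastCases ?_ (fun x => hφ x) j
    rw [par_last h f hf hfC]
    exact hφ n
  rcases ext_dich hE hM (lab_init h) hdS hdC (fun i => hd' _) h0' with h1 | ⟨j, hj⟩
  · exact absurd h1 hloop
  have hmS : φ j.castSucc ∈ M.S := h.mem _
  have hmC : φ j.castSucc ∉ C := h.out _
  have hdm : d ≠ φ j.castSucc := fun he => hd' _ he.symm
  have hR : ∀ f ∈ M.R, (∀ e, e ≠ d → e ≠ φ j.castSucc → f e = 0) → f = 0 := by
    intro f hf hfe
    have hfC : ∀ c ∈ C, f c = 0 := fun c hc =>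
      hfe c (fun he => hdC (he ▸ hc)) (fun he => hmC (he ▸ hc))
    have hφ := par_wt hN h j j f hf hfC (fun x hx _ => hfe _ (hd' _)
      (fun he => hx (Fin.castSucc_injective _ (h.inj he))))
    funext e
    by_cases he1 : e = d
    · rw [he1]; exact h0 f hf hfC hφ
    by_cases he2 : e = φ j.castSucc
    · rw [he2]; exact hφ _
    · exact hfe e he1 he2
  have hu := lab_update h hdS hdC hd' (j := j.castSucc) hj
  have hu' : ∀ i, Function.update φ j.castSucc d i ≠ φ j.castSucc := by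
    intro i
    by_cases hi : i = j.castSucc
    · rw [hi, Function.update_self]; exact hdm
    · rw [Function.update_of_ne hi]; exact fun he => hi (h.inj he)
  have hu2 := lab_del hu hmC hu'
  obtain ⟨X1, s1, n1, l1, o1, m1⟩ :=
    hI (M.del {d}) (hP _ _ hM (minor_del M {d})) (card_sdiff_lt hdS) φ C hl
  obtain ⟨X2, s2, n2, l2, o2, m2⟩ :=
    hI (M.del {φ j.castSucc}) (hP _ _ hM (minor_del M {φ j.castSucc})) (card_sdiff_lt hmS) _ C hu2
  have s1' : X1 ⊆ M.S \ {d} := s1
  have s2' : X2 ⊆ M.S \ {φ j.castSucc} := s2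
  have t1 : X1 ⊆ M.S := s1'.trans Finset.sdiff_subset
  have t2 : X2 ⊆ M.S := s2'.trans Finset.sdiff_subset
  have d1 : d ∉ X1 := fun hx => (Finset.mem_sdiff.1 (s1' hx)).2 (Finset.mem_singleton_self _)
  have m2' : φ j.castSucc ∉ X2 :=
    fun hx => (Finset.mem_sdiff.1 (s2' hx)).2 (Finset.mem_singleton_self _)
  have hlj : Fin.last k ≠ j.castSucc := (Fin.castSucc_lt_last j).ne'
  rw [Function.update_of_ne hlj] at l2
  have o2' : ∀ i, i ≠ n → i ≠ j → φ i.castSucc ∉ X2 := by
    intro i hi hij hx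
    refine o2 i hi ?_
    rw [Function.update_of_ne (fun he => hij (Fin.castSucc_injective _ he))]
    exact hx
  obtain ⟨i0, hi0⟩ := hN.col n
  obtain ⟨f, hf, hfC, hfφ⟩ := (lab_init h).r1 i0
  have hfn : f (φ n.castSucc) ≠ 0 := by rw [hfφ]; exact hi0
  have hinj : ∀ x y : Fin k, x ≠ y → φ x.castSucc ≠ φ y.castSucc := fun x y hxy he =>
    hxy (Fin.castSucc_injective _ (h.inj he))
  -- the masked row vanishes on `C`
  have hgC : ∀ (X : Finset E) (g : E → ZMod 2),
      (∀ e ∈ M.S, e ≠ d → e ≠ φ j.castSucc → g e = if e ∈ X then f e else 0) →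
      ∀ c ∈ C, g c = 0 := by
    intro X g hg c hc
    rw [hg c (h.sub hc) (fun he => hdC (he ▸ hc)) (fun he => hmC (he ▸ hc)), hfC c hc, ite_self]
  by_cases hjn : j = n
  · subst hjn
    have m1' : φ j.castSucc ∈ X1 := n1
    have d2 : d ∈ X2 := by rw [Function.update_self] at n2; exact n2
    have hA := uncross_A M hdS hmS hdm hR t1 t2 d1 m1' d2 m2'
    rcases Nat.lt_or_ge 1 (M.lam (X1 ∪ X2)) with hlt | hle
    · exfalso
      have hz : (M.del {d, φ j.castSucc}).lam (X1 ∩ X2) = 0 := by omega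
      have hsub : X1 ∩ X2 ⊆ M.S \ {d, φ j.castSucc} := by
        intro x hx
        rw [Finset.mem_inter] at hx
        rw [Finset.mem_sdiff, Finset.mem_insert, Finset.mem_singleton]
        refine ⟨t1 hx.1, ?_⟩
        rintro (rfl | rfl)
        · exact d1 hx.1
        · exact m2' hx.2
      obtain ⟨g, hg, hg'⟩ := zero_mask_row hsub hz hf
      have hw := par_wt hN h j j g hg (hgC _ g hg') (fun x hx _ => by
        rw [hg' _ (h.mem _) (hd' _) (hinj x j hx), if_neg]
        intro hx2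
        exact o1 x hx (Finset.mem_inter.1 hx2).1) (Fin.last k)
      rw [hg' _ (h.mem _) (hd' _) (fun he => hlj (h.inj he)),
        if_pos (Finset.mem_inter.2 ⟨l1, l2⟩), par_last h f hf hfC] at hw
      exact hfn hw
    · refine ⟨X1 ∪ X2, Finset.union_subset t1 t2, Finset.mem_union_left _ m1',
        Finset.mem_union_left _ l1, ?_, hle⟩
      intro i hi hx
      rcases Finset.mem_union.1 hx with hx | hx
      · exact o1 i hi hx
      · exact o2' i hi hi hx
  · have m1' : φ j.castSucc ∉ X1 := o1 j hjn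
    have d2 : d ∉ X2 := by
      have := o2 j hjn
      rwa [Function.update_self] at this
    have hnj : n.castSucc ≠ j.castSucc := fun he => hjn (Fin.castSucc_injective _ he).symm
    rw [Function.update_of_ne hnj] at n2
    have hB := uncross_B M hdS hmS hdm hR t1 t2 d1 m1' d2 m2'
    rcases Nat.lt_or_ge 1 (M.lam (X1 ∩ X2)) with hlt | hle
    · exfalso
      have hz : (M.del {d, φ j.castSucc}).lam (X1 ∪ X2) = 0 := by omega
      have hsub : X1 ∪ X2 ⊆ M.S \ {d, φ j.castSucc} := by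
        intro x hx
        rw [Finset.mem_union] at hx
        rw [Finset.mem_sdiff, Finset.mem_insert, Finset.mem_singleton]
        refine ⟨hx.elim (fun hx => t1 hx) (fun hx => t2 hx), ?_⟩
        rintro (rfl | rfl)
        · exact hx.elim d1 d2
        · exact hx.elim m1' m2'
      obtain ⟨g, hg, hg'⟩ := zero_mask_row hsub hz hf
      have hw := par_wt hN h n j g hg (hgC _ g hg') (fun x hx hxj => by
        rw [hg' _ (h.mem _) (hd' _) (hinj x j hxj), if_neg]
        intro hx2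
        rcases Finset.mem_union.1 hx2 with hx2 | hx2
        · exact o1 x hx hx2
        · exact o2' x hx hxj hx2) n.castSucc
      rw [hg' _ (h.mem _) (hd' _) (hinj n j (Ne.symm hjn)),
        if_pos (Finset.mem_union_left _ n1)] at hw
      exact hfn hw
    · refine ⟨X1 ∩ X2, fun x hx => t1 (Finset.mem_inter.1 hx).1, Finset.mem_inter.2 ⟨n1, n2⟩,
        Finset.mem_inter.2 ⟨l1, l2⟩, ?_, hle⟩
      intro i hi hx
      exact o1 i hi (Finset.mem_inter.1 hx).1

end SEY.Sp
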