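import Pool.Agent.Helper73.SEY.SpPar1

/-!
SP-5 (parallel case, second half).  `e = φ (Fin.last k)`, `φ' = φ ∘ castSucc`, `rest M φ C = ∅`, so
`M.S` is the disjoint union of the image of `φ` and `C`.

lab_swap: `ρ ∈ M.R`, `ρ|(C.erase c) = 0`, `ρ c = 1`, `ρ ∘ φ = 1_j` (a row of a minor).  The rows `f` with
`f|C = 0` and the rows `f'` which vanish on `C' = insert (φ j) (C.erase c)` correspond:
`f' = f + f (φ j) ρ`, `f = f' + f' c ρ`; `f' c = f (φ j)`, `f' (φ i) = f (φ i)` for `i ≠ j`.
tri_minor: `φ'' = Fin.snoc φ c`, contracted set `C.erase c`.  The rows `f i` of (r1) for `par rows n`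
vanish at `c`; `ρ` is the last row.  (r2): `f + f c ρ` vanishes on `C`.

step_C: if some `c ∈ C` has: all `f ∈ M.R` with `f|(C.erase c) = 0` have `f c = 0`, or there is such an
`f` with `f c = 1`, `f ∘ φ = 0`, then `step_Q` with `v = c` (`lab_del_of` and `lab_con`).  Otherwise for
each `c ∈ C` `coext_dich` (for `lab_init h`) gives `ρ ∈ M.R`, `ρ|(C.erase c) = 0`, `ρ c = 1`, and
`ρ ∘ φ' = 0` or `ρ ∘ φ' = 1_j`.
* `ρ ∘ φ' = 1_j`, `j ≠ n`, `ρ e = 0`: `ρ = ind {c, φ' j}`.  `IH` for `M.con {c}` (`lab_con`) gives `X1`,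
  `φ' j ∉ X1`, and `M.lam X1 = (M.con {c}).lam X1` by `lam_con_series`.
* `ρ ∘ φ' = 1_j`, `j ≠ n`, `ρ e = 1`: `lab_swap` is applied to `ext rows`-labelling: with
  `φ'' = Function.update φ' j c`, `C' = insert (φ' j) (C.erase c)` one has `Lab rows M φ'' C'`, and
  `f' e = f' (φ'' n) + f' (φ'' j)` for the rows `f'` vanishing on `C'` (`f' = f + f (φ' j) ρ`,
  `f e = f (φ' n)` by `par_last`), so `Lab (ext rows (fun i => rows i n + rows i j)) M
  (Fin.snoc φ'' e) C'` (this is `swap_ext`).  By `EOK` either `rows i n + rows i j = 0` for all `i`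
  (contradiction to `Nice.sim`) or `rows i n + rows i j = rows i l` for all `i`, and `TOK`
  contradicts `tri_minor`.
* Otherwise for all `c ∈ C` the row `ρ_c` has support in `{φ' n, e, c}`.  `X = {φ' n, e} ∪ C`.
  The `ρ_c` are linearly independent elements of the space of rows contained in `X`, so
  `|C| ≤ dR X`; the rows which vanish on `C` and at `φ' n` vanish on `X` (`par_last`) and form a
  subspace of codimension at most `|C| + 1` in `M.R`, so `dR (M.S \ X) ≥ rk - |C| - 1`.  By
  `lam_add_dR` `M.lam X ≤ 1` (this is `lam_fan`).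

par_case: induction on `M.S.card`: `step_C` if `rest M φ C = ∅` and `step_D` otherwise.
-/

namespace SEY.Sp

open Finset BM

variable {E : Type} [Fintype E] [DecidableEq E] {r s k : ℕ} {rows : Fin r → Fin k → ZMod 2}
  {duals : Fin s → Fin k → ZMod 2} {M : BM E} {P : BM E → Prop} {n : Fin k}
  {φ : Fin (k + 1) → E} {C : Finset E}

omit [Fintype E] [DecidableEq E] in
lemma p2_ext_castSucc (v : Fin r → ZMod 2) (i : Fin r) (x : Fin k) :
    ext rows v i x.castSucc = rows i x := by
  simp [ext]

omit [Fintype E] [DecidableEq E] in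
lemma p2_ext_last (v : Fin r → ZMod 2) (i : Fin r) : ext rows v i (Fin.last k) = v i := by
  simp [ext]

omit [Fintype E] [DecidableEq E] in
lemma p2_par_castSucc (i : Fin r) (x : Fin k) : par rows n i x.castSucc = rows i x := by
  simp [par, ext]

omit [Fintype E] [DecidableEq E] in
lemma p2_par_last (i : Fin r) : par rows n i (Fin.last k) = rows i n := by
  simp [par, ext]

theorem swap_ext (h : Lab (par rows n) M φ C) {c : E} (hc : c ∈ C) {j : Fin k} (hj : j ≠ n)
    {ρ : E → ZMod 2} (hρ : ρ ∈ M.R) (h1 : ∀ x ∈ C.erase c, ρ x = 0) (h2 : ρ c = 1)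
    (h3 : ∀ i : Fin k, ρ (φ i.castSucc) = if i = j then 1 else 0) (h4 : ρ (φ (Fin.last k)) = 1) :
    HasMinor (ext rows (fun i => rows i n + rows i j)) M := by
  have hcφ : ∀ i, φ i ≠ c := fun i hi => h.out i (hi ▸ hc)
  have hρj : ρ (φ j.castSucc) = 1 := by rw [h3, if_pos rfl]
  let ψ : Fin (k + 1) → E := Fin.snoc (α := fun _ => E)
    (Function.update (fun i : Fin k => φ i.castSucc) j c) (φ (Fin.last k))
  have ψl : ψ (Fin.last k) = φ (Fin.last k) := by
    show (Fin.snoc (α := fun _ => E)
      (Function.update (fun i : Fin k => φ i.castSucc) j c) (φ (Fin.last k)) : Fin (k + 1) → E)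
      (Fin.last k) = _
    rw [Fin.snoc_last]
  have ψj : ψ j.castSucc = c := by
    show (Fin.snoc (α := fun _ => E)
      (Function.update (fun i : Fin k => φ i.castSucc) j c) (φ (Fin.last k)) : Fin (k + 1) → E)
      j.castSucc = c
    rw [Fin.snoc_castSucc, Function.update_self]
  have ψi : ∀ i : Fin k, i ≠ j → ψ i.castSucc = φ i.castSucc := by
    intro i hi
    show (Fin.snoc (α := fun _ => E)
      (Function.update (fun i : Fin k => φ i.castSucc) j c) (φ (Fin.last k)) : Fin (k + 1) → E)
      i.castSucc = _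
    rw [Fin.snoc_castSucc, Function.update_of_ne hi]
  have hval : ∀ x : Fin (k + 1), (x = Fin.last k ∧ ψ x = φ x) ∨ (x = j.castSucc ∧ ψ x = c) ∨
      (∃ i : Fin k, i ≠ j ∧ x = i.castSucc ∧ ψ x = φ x) := by
    intro x
    refine Fin.lastCases ?_ (fun i => ?_) x
    · exact Or.inl ⟨rfl, ψl⟩
    · by_cases hi : i = j
      · subst hi
        exact Or.inr (Or.inl ⟨rfl, ψj⟩)
      · exact Or.inr (Or.inr ⟨i, hi, rfl, ψi i hi⟩)
  have hval2 : ∀ x : Fin (k + 1), x ≠ j.castSucc → ψ x = φ x := by
    intro x hx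
    rcases hval x with ⟨-, h5⟩ | ⟨h5, -⟩ | ⟨i, -, -, h5⟩
    · exact h5
    · exact absurd h5 hx
    · exact h5
  have hinj : Function.Injective ψ := by
    intro x y hxy
    by_cases hx : x = j.castSucc
    · by_cases hy : y = j.castSucc
      · rw [hx, hy]
      · rw [hx, ψj, hval2 y hy] at hxy
        exact absurd hxy.symm (hcφ y)
    · by_cases hy : y = j.castSucc
      · rw [hy, ψj, hval2 x hx] at hxy
        exact absurd hxy (hcφ x)
      · rw [hval2 x hx, hval2 y hy] at hxy
        exact h.inj hxy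
  refine hasMinor_iff.2 ⟨ψ, insert (φ j.castSucc) (C.erase c), hinj, ?_, ?_, ?_, ?_, ?_⟩
  · intro x
    by_cases hx : x = j.castSucc
    · rw [hx, ψj]; exact h.sub hc
    · rw [hval2 x hx]; exact h.mem x
  · exact Finset.insert_subset (h.mem _) ((Finset.erase_subset _ _).trans h.sub)
  · intro x hx'
    rw [Finset.mem_insert, Finset.mem_erase] at hx'
    by_cases hx : x = j.castSucc
    · rw [hx, ψj] at hx'
      rcases hx' with h5 | h5
      · exact hcφ _ h5.symm
      · exact h5.1 rfl
    · rw [hval2 x hx] at hx'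
      rcases hx' with h5 | h5
      · exact hx (h.inj h5)
      · exact h.out x h5.2
  · intro i
    obtain ⟨f, hf, hfC, hfφ⟩ := h.r1 i
    have hfj : f (φ j.castSucc) = rows i j := by rw [hfφ, p2_par_castSucc]
    refine ⟨f + rows i j • ρ, M.R.add_mem hf (M.R.smul_mem _ hρ), ?_, ?_⟩
    · intro x hx
      rw [Finset.mem_insert] at hx
      rw [Pi.add_apply, Pi.smul_apply, smul_eq_mul]
      rcases hx with rfl | hx
      · rw [hfj, hρj, mul_one, z_add_self]
      · rw [hfC x (Finset.mem_of_mem_erase hx), h1 x hx, mul_zero, add_zero]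
    · intro x
      rw [Pi.add_apply, Pi.smul_apply, smul_eq_mul]
      rcases hval x with ⟨h5, h6⟩ | ⟨h5, h6⟩ | ⟨i', h5, h7, h6⟩
      · rw [h6, h5, hfφ, p2_par_last, h4, mul_one, p2_ext_last]
      · rw [h6, h5, hfC c hc, h2, mul_one, zero_add, p2_ext_castSucc]
      · rw [h6, h7, hfφ, p2_par_castSucc, h3, if_neg h5, mul_zero, add_zero, p2_ext_castSucc]
  · intro f hf hfC
    have hfj : f (φ j.castSucc) = 0 := hfC _ (by simp)
    have hfe : ∀ x ∈ C.erase c, f x = 0 := fun x hx => hfC x (by simp only [Finset.mem_insert, hx, or_true])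
    obtain ⟨a, ha⟩ := h.r2 (f + f c • ρ) (M.R.add_mem hf (M.R.smul_mem _ hρ)) (fun x hx => by
      rw [Pi.add_apply, Pi.smul_apply, smul_eq_mul]
      by_cases hxc : x = c
      · rw [hxc, h2, mul_one, z_add_self]
      · have hx' : x ∈ C.erase c := Finset.mem_erase.2 ⟨hxc, hx⟩
        rw [hfe x hx', h1 x hx', mul_zero, add_zero])
    have hcj : f c = ∑ i, a i * rows i j := by
      have h5 := ha j.castSucc
      rw [Pi.add_apply, Pi.smul_apply, smul_eq_mul, hfj, hρj, mul_one, zero_add] at h5
      rw [h5]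
      exact Finset.sum_congr rfl (fun i _ => by rw [p2_par_castSucc])
    refine ⟨a, fun x => ?_⟩
    rcases hval x with ⟨h5, h6⟩ | ⟨h5, h6⟩ | ⟨i', h5, h7, h6⟩
    · have h8 := ha (Fin.last k)
      rw [Pi.add_apply, Pi.smul_apply, smul_eq_mul, h4, mul_one] at h8
      have h9 : f (φ (Fin.last k)) = (∑ i, a i * par rows n i (Fin.last k)) + f c := by
        rw [← h8, add_assoc, z_add_self, add_zero]
      rw [h6, h5, h9, hcj, ← Finset.sum_add_distrib]
      refine Finset.sum_congr rfl (fun i _ => ?_)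
      rw [p2_par_last, p2_ext_last, mul_add]
    · rw [h6, h5, hcj]
      exact Finset.sum_congr rfl (fun i _ => by rw [p2_ext_castSucc])
    · have h8 := ha i'.castSucc
      rw [Pi.add_apply, Pi.smul_apply, smul_eq_mul, h3, if_neg h5, mul_zero, add_zero] at h8
      rw [h6, h7, h8]
      exact Finset.sum_congr rfl (fun i _ => by rw [p2_ext_castSucc, p2_par_castSucc])

theorem tri_minor (h : Lab (par rows n) M φ C) {c : E} (hc : c ∈ C) {j : Fin k}
    {ρ : E → ZMod 2} (hρ : ρ ∈ M.R) (h1 : ∀ x ∈ C.erase c, ρ x = 0) (h2 : ρ c = 1)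
    (h3 : ∀ i : Fin k, ρ (φ i.castSucc) = if i = j then 1 else 0) (h4 : ρ (φ (Fin.last k)) = 1) :
    HasMinor (tri rows n j) M := by
  have hcφ : ∀ i, φ i ≠ c := fun i hi => h.out i (hi ▸ hc)
  let ψ : Fin (k + 1 + 1) → E := Fin.snoc (α := fun _ => E) φ c
  have ψl : ψ (Fin.last (k + 1)) = c := by simp [ψ]
  have ψi : ∀ i : Fin (k + 1), ψ i.castSucc = φ i := by
    intro i
    simp [ψ]
  have hinj : Function.Injective ψ := by
    intro x y
    refine Fin.lastCases ?_ (fun i => ?_) x
    · refine Fin.lastCases ?_ (fun i' => ?_) y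
      · intro _; rfl
      · intro hxy
        rw [ψl, ψi] at hxy
        exact absurd hxy.symm (hcφ i')
    · refine Fin.lastCases ?_ (fun i' => ?_) y
      · intro hxy
        rw [ψl, ψi] at hxy
        exact absurd hxy (hcφ i)
      · intro hxy
        rw [ψi, ψi] at hxy
        rw [h.inj hxy]
  refine hasMinor_iff.2 ⟨ψ, C.erase c, hinj, ?_, (Finset.erase_subset _ _).trans h.sub, ?_, ?_, ?_⟩
  · intro x
    refine Fin.lastCases ?_ (fun i => ?_) x
    · rw [ψl]; exact h.sub hc
    · rw [ψi]; exact h.mem i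
  · intro x
    refine Fin.lastCases ?_ (fun i => ?_) x
    · rw [ψl]; simp
    · rw [ψi]
      exact fun h' => h.out i (Finset.mem_of_mem_erase h')
  · intro i
    refine Fin.lastCases ?_ (fun i => ?_) i
    · refine ⟨ρ, hρ, h1, fun x => ?_⟩
      refine Fin.lastCases ?_ (fun x' => ?_) x
      · rw [ψl, h2]; simp [tri]
      · rw [ψi]
        refine Fin.lastCases ?_ (fun y => ?_) x'
        · rw [h4]; simp [tri]
        · rw [h3]; simp [tri]
    · obtain ⟨f, hf, hfC, hfφ⟩ := h.r1 i
      refine ⟨f, hf, fun x hx => hfC x (Finset.mem_of_mem_erase hx), fun x => ?_⟩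
      refine Fin.lastCases ?_ (fun x' => ?_) x
      · rw [ψl, hfC c hc]; simp [tri]
      · rw [ψi, hfφ]; simp [tri]
  · intro f hf hfC
    obtain ⟨a, ha⟩ := h.r2 (f + f c • ρ) (M.R.add_mem hf (M.R.smul_mem _ hρ)) (fun x hx => by
      rw [Pi.add_apply, Pi.smul_apply, smul_eq_mul]
      by_cases hxc : x = c
      · rw [hxc, h2, mul_one, z_add_self]
      · have hx' : x ∈ C.erase c := Finset.mem_erase.2 ⟨hxc, hx⟩
        rw [hfC x hx', h1 x hx', mul_zero, add_zero])
    refine ⟨Fin.snoc (α := fun _ => ZMod 2) a (f c), fun x => ?_⟩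
    rw [Fin.sum_univ_castSucc]
    simp only [Fin.snoc_castSucc, Fin.snoc_last]
    refine Fin.lastCases ?_ (fun x' => ?_) x
    · rw [ψl]
      simp [tri]
    · have h8 := ha x'
      rw [Pi.add_apply, Pi.smul_apply, smul_eq_mul] at h8
      have h9 : f (φ x') = (∑ i, a i * par rows n i x') + f c * ρ (φ x') := by
        rw [← h8, add_assoc, z_add_self, add_zero]
      rw [ψi, h9]
      congr 1
      · refine Finset.sum_congr rfl (fun i _ => ?_)
        simp [tri]
      · congr 1
        refine Fin.lastCases ?_ (fun y => ?_) x'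
        · rw [h4]; simp [tri]
        · rw [h3]; simp [tri]

theorem lam_fan {C : Finset E} {a b : E} (hC : C ⊆ M.S) (ha : a ∈ M.S) (hb : b ∈ M.S)
    (haC : a ∉ C) (hbC : b ∉ C)
    (hab : ∀ f ∈ M.R, (∀ c ∈ C, f c = 0) → f b = f a)
    (hρ : ∀ c ∈ C, ∃ ρ ∈ M.R, ρ c = 1 ∧ ∀ x, x ≠ c → x ≠ a → x ≠ b → ρ x = 0) :
    M.lam (insert a (insert b C)) ≤ 1 := by
  have h1 := M.lam_add_dR_eq_r (insert a (insert b C))
  -- rank
  have h2 : M.r (insert a (insert b C)) = M.r (insert a C) := by
    have g1 := M.r_add_dR (insert a (insert b C))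
    have g2 := M.r_add_dR (insert a C)
    have g3 : M.RIn (insert a (insert b C))ᶜ = M.RIn (insert a C)ᶜ := by
      ext f
      rw [mem_RIn, mem_RIn]
      constructor
      · rintro ⟨hf, hf2⟩
        refine ⟨hf, fun e he => hf2 e ?_⟩
        simp only [Finset.mem_compl, not_not, Finset.mem_insert] at he ⊢
        tauto
      · rintro ⟨hf, hf2⟩
        refine ⟨hf, fun e he => ?_⟩
        simp only [Finset.mem_compl, not_not, Finset.mem_insert] at he hf2
        rcases he with rfl | rfl | he
        · exact hf2 _ (Or.inl rfl)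
        · rw [hab f hf (fun c hc => hf2 c (Or.inr hc))]
          exact hf2 _ (Or.inl rfl)
        · exact hf2 _ (Or.inr he)
    have g4 : M.dR (insert a (insert b C))ᶜ = M.dR (insert a C)ᶜ := by
      unfold BM.dR; rw [g3]
    omega
  have h3 := M.r_le_card (insert a C)
  rw [Finset.card_insert_of_notMem haC] at h3
  -- rows inside
  have h4 : C.card ≤ M.dR (insert a (insert b C)) := by
    choose! ρ hρ1 hρ2 hρ3 using hρ
    let v : C → M.RIn (insert a (insert b C)) := fun c => ⟨ρ c, hρ1 c c.2, fun e he => by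
      simp only [Finset.mem_insert, not_or] at he
      refine hρ3 c c.2 e (fun h5 => he.2.2 ?_) he.1 he.2.1
      rw [h5]; exact c.2⟩
    have hli : LinearIndependent (ZMod 2) v := by
      rw [Fintype.linearIndependent_iff]
      intro g hg c
      have h5 := congrArg (fun w : M.RIn (insert a (insert b C)) => (w : E → ZMod 2) c) hg
      simp only [Submodule.coe_sum, Submodule.coe_smul, Finset.sum_apply, Pi.smul_apply,
        smul_eq_mul, Submodule.coe_zero, Pi.zero_apply] at h5
      rw [Finset.sum_eq_single c] at h5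
      · have h6 : ((v c : E → ZMod 2)) c = 1 := hρ2 c c.2
        rw [h6, mul_one] at h5
        exact h5
      · intro c' _ hne
        have h6 : ((v c' : E → ZMod 2)) c = 0 := by
          refine hρ3 c' c'.2 c (fun h7 => hne (Subtype.ext h7.symm)) ?_ ?_
          · intro h7; exact haC (h7 ▸ c.2)
          · intro h7; exact hbC (h7 ▸ c.2)
        rw [h6, mul_zero]
      · intro h6; exact absurd (Finset.mem_univ _) h6
    have h5 := hli.fintype_card_le_finrank
    rw [Fintype.card_coe] at h5
    exact h5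
  omega

theorem step_C (hP : ∀ M N : BM E, P M → Minor N M → P N) (hc : Compl rows duals)
    (hN : Nice rows) (hE : EOK rows P) (hE' : EOK duals (fun N : BM E => P N.dual))
    (hT : TOK rows P) (hM : P M) (hI : IH rows P n M.S.card) (h : Lab (par rows n) M φ C)
    (hr : rest M φ C = ∅) : Good n M φ := by
  have hcover : ∀ x ∈ M.S, x ∈ C ∨ ∃ i, φ i = x := by
    intro x hx
    by_contra hcon
    push_neg at hcon
    have : x ∈ rest M φ C := mem_rest.2 ⟨hx, hcon.1, hcon.2⟩
    rw [hr] at this
    simp at this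
  have hne : ∀ c ∈ C, ∀ i, φ i ≠ c := fun c hc' i hi => h.out i (hi ▸ hc')
  by_cases hq : ∃ c ∈ C, (∀ f ∈ M.R, (∀ x ∈ C.erase c, f x = 0) → f c = 0) ∨
      ∃ f ∈ M.R, (∀ x ∈ C.erase c, f x = 0) ∧ f c = 1 ∧ ∀ j, f (φ j) = 0
  · obtain ⟨c, hcC, hl⟩ := hq
    exact step_Q hP hM hI (h.sub hcC) (hne c hcC) (lab_del_of h hcC hl) (lab_con h hcC)
  push_neg at hq
  have hex : ∀ c ∈ C, ∃ ρ ∈ M.R, (∀ x ∈ C.erase c, ρ x = 0) ∧ ρ c = 1 ∧
      ((∀ i : Fin k, ρ (φ i.castSucc) = 0) ∨
        ∃ j : Fin k, ∀ i : Fin k, ρ (φ i.castSucc) = if i = j then 1 else 0) := by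
    intro c hcC
    obtain ⟨f, hf, hf1, hf2⟩ := (hq c hcC).1
    exact coext_dich hc hE' hM (lab_init h) hcC ⟨f, hf, hf1, z_ne_zero.1 hf2⟩
  by_cases hj : ∃ c ∈ C, ∃ j : Fin k, j ≠ n ∧ ∃ ρ ∈ M.R, (∀ x ∈ C.erase c, ρ x = 0) ∧ ρ c = 1 ∧
      ∀ i : Fin k, ρ (φ i.castSucc) = if i = j then 1 else 0
  · obtain ⟨c, hcC, j, hjn, ρ, hρ, hρ1, hρ2, hρ3⟩ := hj
    rcases zcases (ρ (φ (Fin.last k))) with h0 | h0
    · -- a series pair
      have hind : ρ = ind {c, φ j.castSucc} := by
        ext x
        by_cases hx : x ∈ M.S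
        · rcases hcover x hx with hxC | ⟨i, rfl⟩
          · by_cases hxc : x = c
            · subst hxc
              rw [hρ2, ind_of_mem (by simp)]
            · rw [hρ1 x (Finset.mem_erase.2 ⟨hxc, hxC⟩), ind_of_notMem]
              rw [Finset.mem_insert, Finset.mem_singleton, not_or]
              exact ⟨hxc, fun h5 => hne x hxC _ h5.symm⟩
          · revert hx
            refine Fin.lastCases ?_ (fun y => ?_) i
            · intro _
              rw [h0, ind_of_notMem]
              rw [Finset.mem_insert, Finset.mem_singleton, not_or]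
              refine ⟨hne c hcC _, fun h5 => ?_⟩
              exact absurd (h.inj h5) (Fin.castSucc_lt_last j).ne'
            · intro _
              rw [hρ3]
              by_cases hy : y = j
              · subst hy
                rw [if_pos rfl, ind_of_mem (by simp)]
              · rw [if_neg hy, ind_of_notMem]
                rw [Finset.mem_insert, Finset.mem_singleton, not_or]
                refine ⟨hne c hcC _, fun h5 => hy ?_⟩
                exact Fin.castSucc_injective k (h.inj h5)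
        · rw [M.supp ρ hρ x hx, ind_of_notMem]
          rw [Finset.mem_insert, Finset.mem_singleton, not_or]
          exact ⟨fun h5 => hx (h5 ▸ h.sub hcC), fun h5 => hx (h5 ▸ h.mem _)⟩
      obtain ⟨X, hX, x1, x2, x3, x4⟩ := hI (M.con {c}) (hP M _ hM (minor_con M {c})) (by
        rw [BM.con_S, Finset.sdiff_singleton_eq_erase]
        exact Finset.card_erase_lt_of_mem (h.sub hcC)) φ (C.erase c) (lab_con h hcC)
      rw [BM.con_S] at hX
      have hXS : X ⊆ M.S := hX.trans Finset.sdiff_subset
      refine ⟨X, hXS, x1, x2, x3, ?_⟩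
      rw [lam_con_series M (h.sub hcC) (h.mem j.castSucc) (hne c hcC _).symm (hind ▸ hρ) hXS
        (fun h5 => by simpa using hX h5) (x3 j hjn)]
      exact x4
    · exfalso
      have hm := swap_ext h hcC hjn hρ hρ1 hρ2 hρ3 h0
      have hcons : Cons rows (fun i => rows i n + rows i j) := by
        intro a ha
        simp only [mul_add, Finset.sum_add_distrib, ha, add_zero]
      rcases hE M hM _ hcons hm with h5 | ⟨l, h5⟩
      · obtain ⟨i, hi⟩ := hN.sim n j hjn.symm
        exact hi (z_add_eq_zero.1 (h5 i))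
      · exact hT M hM n j l hjn.symm h5 (tri_minor h hcC hρ hρ1 hρ2 hρ3 h0)
  · push_neg at hj
    refine ⟨insert (φ n.castSucc) (insert (φ (Fin.last k)) C), ?_, by simp, by simp, ?_, ?_⟩
    · exact Finset.insert_subset (h.mem _) (Finset.insert_subset (h.mem _) h.sub)
    · intro j hjn h5
      rw [Finset.mem_insert, Finset.mem_insert] at h5
      rcases h5 with h5 | h5 | h5
      · exact hjn (Fin.castSucc_injective k (h.inj h5))
      · exact absurd (h.inj h5) (Fin.castSucc_lt_last j).ne
      · exact h.out _ h5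
    · refine lam_fan h.sub (h.mem _) (h.mem _) (h.out _) (h.out _) (par_last h) ?_
      intro c hcC
      obtain ⟨ρ, hρ, hρ1, hρ2, hρ3⟩ := hex c hcC
      refine ⟨ρ, hρ, hρ2, fun x hxc hxa hxb => ?_⟩
      by_cases hx : x ∈ M.S
      · rcases hcover x hx with hxC | ⟨i, rfl⟩
        · exact hρ1 x (Finset.mem_erase.2 ⟨hxc, hxC⟩)
        · revert hxa hxb
          refine Fin.lastCases ?_ (fun y => ?_) i
          · intro _ hxb
            exact absurd rfl hxb
          · intro hxa _
            rcases hρ3 with h5 | ⟨j, h5⟩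
            · exact h5 y
            · by_cases hjn : j = n
              · rw [h5, if_neg]
                rintro rfl
                exact hxa (by rw [hjn])
              · obtain ⟨i, hi⟩ := hj c hcC j hjn ρ hρ hρ1 hρ2
                exact absurd (h5 i) hi
      · exact M.supp ρ hρ x hx

theorem par_case (hP : ∀ M N : BM E, P M → Minor N M → P N) (hc : Compl rows duals)
    (hN : Nice rows) (hE : EOK rows P) (hE' : EOK duals (fun N : BM E => P N.dual))
    (hT : TOK rows P) (hM : P M) (h : Lab (par rows n) M φ C) : Good n M φ := by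
  have key : ∀ m : ℕ, ∀ M : BM E, P M → M.S.card < m → ∀ (φ : Fin (k + 1) → E) (C : Finset E),
      Lab (par rows n) M φ C → Good n M φ := by
    intro m
    induction m with
    | zero => intro M _ hlt; omega
    | succ m ih =>
      intro M hM hlt φ C h
      have hI : IH rows P n M.S.card := by
        intro M' hM' hlt' φ' C' h'
        exact ih M' hM' (by omega) φ' C' h'
      by_cases hr : rest M φ C = ∅
      · exact step_C hP hc hN hE hE' hT hM hI h hr
      · obtain ⟨d, hd⟩ := Finset.nonempty_iff_ne_empty.2 hr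
        exact step_D hP hN hE hM hI h hd
  exact key _ M hM (Nat.lt_succ_self _) φ C h

end SEY.Sp
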