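import Pool.Agent.Helper73.SEY.SpPar2

/-!
SP-6 (splitter theorem).  `exists_irr` gives `φ`, `C` with `Lab rows M φ C`, (a) and (b).
By `ext_dich` every `d ∈ rest M φ C` is a loop of the minor with `d` kept, or for some `n` one has
`f d = f (φ n)` for all `f ∈ M.R` with `f|C = 0`.

no_par: in the second case `Lab (par rows n) M (Fin.snoc φ d) C`; `par_case` gives `X` which contains
`φ n`, `d` and no other `φ j`, `M.lam X ≤ 1`; `X` has at least 2 elements and `M.S \ X` at least
`k - 1 ≥ 2`: contradiction to `TC.of_lam_one`.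

By `coext_dich` every `c ∈ C` has a row `ρ` with `ρ|(C.erase c) = 0`, `ρ c = 1`, `ρ ∘ φ = 0` or `1_n`.
In the second case apply `no_par` to `M.dual`, `duals`, `P' = fun N => P N.dual`, `φ`, `rest M φ C` and
`c` (`lab_dual`): for a cycle `z` with `z|D = 0` one has `0 = dot ρ z = z (φ n) + z c`.  (The
hypotheses for `M.dual`: `P' (M.dual)` by `dual_dual`; `P'` is closed under minors by
`minor_dual` below; `EOK rows (fun N => P' N.dual)` is `EOK rows P`.)

So all `d ∈ D` are loops and all `c ∈ C` have `ρ_c ∘ φ = 0`.  Let `I = univ.image φ`.  For `f ∈ M.R`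
the row `f + ∑ c ∈ C, f c • ρ_c` vanishes on `C`, hence on `D`, and agrees with `f` on `I`, so it is
`mask I f`.  So `M.lam I = 0` (`lam_zero_of_mask`) and `I = M.S` (`TC.of_lam_zero`), `C = ∅`, `D = ∅`:
`IsIso rows M`.
-/

namespace SEY.Sp

open Finset BM

variable {E : Type} [Fintype E] [DecidableEq E] {r s k : ℕ} {rows : Fin r → Fin k → ZMod 2}
  {duals : Fin s → Fin k → ZMod 2} {M : BM E} {P : BM E → Prop} {φ : Fin k → E} {C : Finset E}

theorem minor_dual {M N : BM E} (h : Minor N M) : Minor N.dual M.dual := Minor.dual h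

theorem SpSplit_lab (h : Lab rows M φ C) {d : E} (hd : d ∈ rest M φ C) (n : Fin k)
    (hp : ∀ f ∈ M.R, (∀ c ∈ C, f c = 0) → f d = f (φ n)) :
    Lab (par rows n) M (Fin.snoc (α := fun _ => E) φ d) C := by
  rw [mem_rest] at hd
  obtain ⟨hdS, hdC, hdφ⟩ := hd
  refine ⟨?_, ?_, h.sub, ?_, ?_, ?_⟩
  · intro a b hab
    induction a using Fin.lastCases with
    | last =>
      induction b using Fin.lastCases with
      | last => rfl
      | cast j =>
        rw [Fin.snoc_last, Fin.snoc_castSucc] at hab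
        exact absurd hab.symm (hdφ j)
    | cast i =>
      induction b using Fin.lastCases with
      | last =>
        rw [Fin.snoc_last, Fin.snoc_castSucc] at hab
        exact absurd hab (hdφ i)
      | cast j =>
        rw [Fin.snoc_castSucc, Fin.snoc_castSucc] at hab
        rw [h.inj hab]
  · intro i
    induction i using Fin.lastCases with
    | last => rw [Fin.snoc_last]; exact hdS
    | cast i => rw [Fin.snoc_castSucc]; exact h.mem i
  · intro i
    induction i using Fin.lastCases with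
    | last => rw [Fin.snoc_last]; exact hdC
    | cast i => rw [Fin.snoc_castSucc]; exact h.out i
  · intro i
    obtain ⟨f, hf, hfC, hfφ⟩ := h.r1 i
    refine ⟨f, hf, hfC, ?_⟩
    intro j
    unfold par ext
    induction j using Fin.lastCases with
    | last => rw [Fin.snoc_last, Fin.snoc_last, hp f hf hfC, hfφ]
    | cast j => rw [Fin.snoc_castSucc, Fin.snoc_castSucc, hfφ]
  · intro f hf hfC
    obtain ⟨a, ha⟩ := h.r2 f hf hfC
    refine ⟨a, ?_⟩
    intro j
    unfold par ext
    induction j using Fin.lastCases with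
    | last =>
      rw [Fin.snoc_last, hp f hf hfC, ha]
      exact Finset.sum_congr rfl (fun i _ => by rw [Fin.snoc_last])
    | cast j =>
      rw [Fin.snoc_castSucc, ha]
      exact Finset.sum_congr rfl (fun i _ => by rw [Fin.snoc_castSucc])

theorem no_par (hP : ∀ M N : BM E, P M → Minor N M → P N) (hc : Compl rows duals)
    (hN : Nice rows) (hE : EOK rows P) (hE' : EOK duals (fun N : BM E => P N.dual))
    (hT : TOK rows P) (hk : 3 ≤ k) (hTC : M.TC) (hM : P M) (h : Lab rows M φ C) {d : E}
    (hd : d ∈ rest M φ C) (n : Fin k) :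
    ¬ ∀ f ∈ M.R, (∀ c ∈ C, f c = 0) → f d = f (φ n) := by
  intro hp
  have hL := SpSplit_lab h hd n hp
  obtain ⟨X, hXS, hX1, hX2, hX3, hX4⟩ := par_case hP hc hN hE hE' hT hM hL
  rw [Fin.snoc_castSucc] at hX1
  rw [Fin.snoc_last] at hX2
  rw [mem_rest] at hd
  obtain ⟨hdS, hdC, hdφ⟩ := hd
  rcases hTC.of_lam_one hXS hX4 with h1 | h1
  · have h2 : ({φ n, d} : Finset E) ⊆ X := by
      intro x hx
      rw [Finset.mem_insert, Finset.mem_singleton] at hx
      rcases hx with rfl | rfl
      · exact hX1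
      · exact hX2
    have h3 := Finset.card_le_card h2
    rw [Finset.card_pair (hdφ n)] at h3
    omega
  · have h2 : (univ.erase n).image φ ⊆ M.S \ X := by
      intro x hx
      rw [Finset.mem_image] at hx
      obtain ⟨j, hj, rfl⟩ := hx
      rw [Finset.mem_erase] at hj
      rw [Finset.mem_sdiff]
      refine ⟨h.mem j, ?_⟩
      have h4 := hX3 j hj.1
      rwa [Fin.snoc_castSucc] at h4
    have h3 := Finset.card_le_card h2
    rw [Finset.card_image_of_injective _ h.inj, Finset.card_erase_of_mem (Finset.mem_univ n),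
      Finset.card_univ, Fintype.card_fin] at h3
    omega

theorem lam_image (h : Lab rows M φ C)
    (h1 : ∀ d ∈ rest M φ C, ∀ f ∈ M.R, (∀ c ∈ C, f c = 0) → f d = 0)
    (h2 : ∀ c ∈ C, ∃ ρ ∈ M.R, (∀ x ∈ C.erase c, ρ x = 0) ∧ ρ c = 1 ∧ ∀ i, ρ (φ i) = 0) :
    M.lam (univ.image φ) = 0 := by
  have hI : univ.image φ ⊆ M.S := by
    intro x hx
    rw [Finset.mem_image] at hx
    obtain ⟨i, -, rfl⟩ := hx
    exact h.mem i
  apply lam_zero_of_mask M hI
  intro f hf
  choose! ρ hρR hρ0 hρ1 hρφ using h2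
  have hgR : f + ∑ c ∈ C, f c • ρ c ∈ M.R :=
    M.R.add_mem hf (M.R.sum_mem (fun c hc => M.R.smul_mem _ (hρR c hc)))
  have hval : ∀ e, (f + ∑ c ∈ C, f c • ρ c) e = f e + ∑ c ∈ C, f c * ρ c e := by
    intro e
    rw [Pi.add_apply, Finset.sum_apply]
    rfl
  have hgC : ∀ c ∈ C, (f + ∑ c ∈ C, f c • ρ c) c = 0 := by
    intro c hc
    rw [hval, Finset.sum_eq_single_of_mem c hc, hρ1 c hc, mul_one, z_add_self]
    intro b hb hbc
    rw [hρ0 b hb c (Finset.mem_erase.2 ⟨hbc.symm, hc⟩), mul_zero]
  have hgφ : ∀ i, (f + ∑ c ∈ C, f c • ρ c) (φ i) = f (φ i) := by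
    intro i
    rw [hval, Finset.sum_eq_zero, add_zero]
    intro c hc
    rw [hρφ c hc i, mul_zero]
  have hmask : mask (univ.image φ) f = f + ∑ c ∈ C, f c • ρ c := by
    funext e
    rw [mask_apply]
    by_cases he : e ∈ univ.image φ
    · rw [if_pos he]
      rw [Finset.mem_image] at he
      obtain ⟨i, -, rfl⟩ := he
      exact (hgφ i).symm
    · rw [if_neg he]
      symm
      by_cases heC : e ∈ C
      · exact hgC e heC
      · by_cases heS : e ∈ M.S
        · apply h1 e _ _ hgR hgC
          rw [mem_rest]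
          refine ⟨heS, heC, fun i hi => he ?_⟩
          rw [Finset.mem_image]
          exact ⟨i, Finset.mem_univ i, hi⟩
        · exact M.supp _ hgR e heS
  rw [hmask]
  exact hgR

theorem splitter (hP : ∀ M N : BM E, P M → Minor N M → P N) (hc : Compl rows duals)
    (hN : Nice rows) (hN' : Nice duals) (hE : EOK rows P)
    (hE' : EOK duals (fun N : BM E => P N.dual)) (hT : TOK rows P)
    (hT' : TOK duals (fun N : BM E => P N.dual)) (hk : 3 ≤ k) (hTC : M.TC) (hM : P M)
    (h : HasMinor rows M) : IsIso rows M := by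
  obtain ⟨φ, C0, h0⟩ := hasMinor_iff.1 h
  obtain ⟨C, hL, ha, hb⟩ := exists_irr h0
  have h1 : ∀ d ∈ rest M φ C, ∀ f ∈ M.R, (∀ c ∈ C, f c = 0) → f d = 0 := by
    intro d hd
    have hd2 := mem_rest.1 hd
    rcases ext_dich hE hM hL hd2.1 hd2.2.1 hd2.2.2 (hb d hd) with h3 | ⟨j, h3⟩
    · exact h3
    · exact absurd h3 (no_par hP hc hN hE hE' hT hk hTC hM hL hd j)
  have h2 : ∀ c ∈ C, ∃ ρ ∈ M.R, (∀ x ∈ C.erase c, ρ x = 0) ∧ ρ c = 1 ∧
      ∀ i, ρ (φ i) = 0 := by
    intro c hcC
    obtain ⟨ρ, hρ, hρ0, hρ1, h3 | ⟨j, h3⟩⟩ := coext_dich hc hE' hM hL hcC (ha c hcC)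
    · exact ⟨ρ, hρ, hρ0, hρ1, h3⟩
    · exfalso
      have hE2 : EOK rows (fun N : BM E => P N.dual.dual) := by
        have h4 : (fun N : BM E => P N.dual.dual) = P := by
          funext N
          rw [BM.dual_dual]
        rw [h4]
        exact hE
      have hM2 : P M.dual.dual := by
        rw [BM.dual_dual]
        exact hM
      have hcr : c ∈ rest M.dual φ (rest M φ C) := by
        rw [rest_rest hL]
        exact hcC
      refine no_par (P := fun N : BM E => P N.dual) (fun M N h5 h6 => hP _ _ h5 (minor_dual h6))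
        hc.symm hN' hE' hE2 hT' hk hTC.dual hM2 (lab_dual hc hL) hcr j ?_
      intro z hz hzr
      rw [BM.dual_R] at hz
      have h5 : dot ρ z = 0 := M.dot_eq_zero hρ hz
      have hcj : φ j ≠ c := fun h6 => hL.out j (h6 ▸ hcC)
      have h6 : ∀ e, ρ e * z e = (if e = c then z c else 0) + (if e = φ j then z (φ j) else 0) := by
        intro e
        by_cases he : e = c
        · subst he
          rw [if_pos rfl, if_neg hcj.symm, hρ1, one_mul, add_zero]
        · rw [if_neg he, zero_add]
          by_cases he2 : e = φ j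
          · subst he2
            rw [if_pos rfl, h3 j, if_pos rfl, one_mul]
          · rw [if_neg he2]
            by_cases heC : e ∈ C
            · rw [hρ0 e (Finset.mem_erase.2 ⟨he, heC⟩), zero_mul]
            · by_cases heS : e ∈ M.S
              · by_cases heI : ∃ i, φ i = e
                · obtain ⟨i, rfl⟩ := heI
                  rw [h3 i, if_neg (fun h7 => he2 (by rw [h7])), zero_mul]
                · rw [hzr e (mem_rest.2 ⟨heS, heC, fun i hi => heI ⟨i, hi⟩⟩), mul_zero]
              · rw [M.Z_supp hz heS, mul_zero]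
      have h7 : dot ρ z = z c + z (φ j) := by
        unfold dot
        rw [Finset.sum_congr rfl (fun e _ => h6 e), Finset.sum_add_distrib,
          Finset.sum_ite_eq' Finset.univ c (fun _ => z c),
          Finset.sum_ite_eq' Finset.univ (φ j) (fun _ => z (φ j)),
          if_pos (Finset.mem_univ _), if_pos (Finset.mem_univ _)]
      rw [h7] at h5
      exact z_add_eq_zero.1 h5
  have hlam := lam_image hL h1 h2
  have hI : univ.image φ ⊆ M.S := by
    intro x hx
    rw [Finset.mem_image] at hx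
    obtain ⟨i, -, rfl⟩ := hx
    exact hL.mem i
  have hIS : univ.image φ = M.S := by
    rcases hTC.of_lam_zero hI hlam with h3 | h3
    · exfalso
      have h4 : φ ⟨0, by omega⟩ ∈ univ.image φ := Finset.mem_image_of_mem _ (Finset.mem_univ _)
      rw [h3] at h4
      simp at h4
    · exact h3
  have hC : C = ∅ := by
    rw [Finset.eq_empty_iff_forall_notMem]
    intro c hcC
    have h3 := hL.sub hcC
    rw [← hIS, Finset.mem_image] at h3
    obtain ⟨i, -, rfl⟩ := h3
    exact hL.out i hcC
  subst hC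
  refine ⟨φ, hL.inj, ?_, ?_, ?_⟩
  · intro e
    rw [← hIS, Finset.mem_image]
    constructor
    · rintro ⟨i, -, hi⟩
      exact ⟨i, hi⟩
    · rintro ⟨i, hi⟩
      exact ⟨i, Finset.mem_univ i, hi⟩
  · intro i
    obtain ⟨f, hf, -, hfφ⟩ := hL.r1 i
    exact ⟨f, hf, hfφ⟩
  · intro f hf
    exact hL.r2 f hf (by simp)

end SEY.Sp
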